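import Pool.Agent.Helper21.LT.Defs

/-!
# The edge-flip chain on the lattice triangulations which contain a given set of edges

`Tri`, `step`, `tv` (the chain of the problem without constraint edges) are in
`Pool/Agent/Helper21/LT/Defs.lean`.
-/

set_option autoImplicit false

namespace Pool.Agent.LTF

open Finset Pool.Agent.LT

/-- the lattice triangulation `T` contains all the edges in `F` -/
def Has {N : ℕ} (F : Finset (Finset (ℤ × ℤ))) (T : Tri N) : Prop := F ⊆ T.1

/-- lattice triangulations of `[0, N] ^ 2` which contain all the edges in `F` -/
@[ext] structure TriF (N : ℕ) (F : Finset (Finset (ℤ × ℤ))) where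
  tri : Tri N
  has : Has F tri

noncomputable instance (N : ℕ) (F : Finset (Finset (ℤ × ℤ))) : DecidableEq (TriF N F) :=
  Classical.decEq _

noncomputable instance (N : ℕ) (F : Finset (Finset (ℤ × ℤ))) : Fintype (TriF N F) :=
  Fintype.ofInjective TriF.tri fun _ _ h => TriF.ext h

open Classical in
/-- one step of the chain, if the edge `e` has been chosen: flip `e` if this is possible and if the
new triangulation contains `F`, otherwise stay -/
noncomputable def stepF {N : ℕ} {F : Finset (Finset (ℤ × ℤ))} (T : TriF N F)
    (e : Finset (ℤ × ℤ)) : TriF N F :=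
  if h : Has F (step T.tri e) then ⟨step T.tri e, h⟩ else T

/-- the transition matrix: the edge `e` is chosen uniformly at random in `T` -/
noncomputable def kernelF (N : ℕ) (F : Finset (Finset (ℤ × ℤ))) :
    Matrix (TriF N F) (TriF N F) ℝ :=
  fun T T' => ((T.tri.1.filter fun e => stepF T e = T').card : ℝ) / T.tri.1.card

/-- after `t` steps the chain is at total variation distance at most `1 / 4` from the uniform
distribution, for every starting point -/
def MixedF (N : ℕ) (F : Finset (Finset (ℤ × ℤ))) (t : ℕ) : Prop :=
  ∀ T : TriF N F,
    tv ((kernelF N F ^ t) T) (fun _ => 1 / (Fintype.card (TriF N F) : ℝ)) ≤ 1 / 4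

end Pool.Agent.LTF
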