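import Pool.Agent.Helper21.LT.Final
import Pool.Agent.Helper22.LTF.Defs

/-!
# Bottleneck bound, and elementary facts on the chain with constraint edges
-/

set_option autoImplicit false

namespace Pool.Agent.LTF

open Finset Pool.Agent.LT

section bottle

variable {α : Type*} [Fintype α] [DecidableEq α] {P : Matrix α α ℝ}

lemma pow_nonneg' (h0 : ∀ x y, 0 ≤ P x y) (t : ℕ) (x y : α) : 0 ≤ (P ^ t) x y := by
  induction t generalizing x with
  | zero =>
    simp only [pow_zero, Matrix.one_apply]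
    split_ifs <;> norm_num
  | succ t ih =>
    rw [pow_succ', Matrix.mul_apply]
    exact sum_nonneg fun z _ => mul_nonneg (h0 x z) (ih z)

lemma pow_symm (hs : P.transpose = P) (t : ℕ) (x y : α) : (P ^ t) x y = (P ^ t) y x := by
  have h : (P ^ t).transpose = P ^ t := by rw [Matrix.transpose_pow, hs]
  calc (P ^ t) x y = (P ^ t).transpose y x := rfl
    _ = (P ^ t) y x := by rw [h]

/-- the mass which has left `A` after `t` steps, from the uniform start on `A` -/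
lemma out_le (h0 : ∀ x y, 0 ≤ P x y) (h1 : ∀ x, ∑ y, P x y = 1) (hs : P.transpose = P)
    (A : Finset α) (β : ℝ) (hβ : ∑ x ∈ A, ∑ y ∈ Aᶜ, P x y ≤ β) (t : ℕ) :
    ∑ x ∈ A, ∑ y ∈ Aᶜ, (P ^ t) x y ≤ t * β := by
  induction t with
  | zero =>
    have : ∑ x ∈ A, ∑ y ∈ Aᶜ, (P ^ 0) x y = 0 := by
      refine sum_eq_zero fun x hx => sum_eq_zero fun y hy => ?_
      rw [pow_zero, Matrix.one_apply_ne]
      rintro rfl
      exact (mem_compl.1 hy) hx
    rw [this]; simp
  | succ t ih =>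
    set h : α → ℝ := fun z => ∑ x ∈ A, (P ^ t) x z with hh
    have hh0 : ∀ z, 0 ≤ h z := fun z => sum_nonneg fun x _ => pow_nonneg' h0 t x z
    have hh1 : ∀ z, h z ≤ 1 := by
      intro z
      calc h z ≤ ∑ x, (P ^ t) x z :=
            sum_le_sum_of_subset_of_nonneg (subset_univ _) fun x _ _ => pow_nonneg' h0 t x z
        _ = ∑ x, (P ^ t) z x := sum_congr rfl fun x _ => pow_symm hs t x z
        _ = 1 := pow_sum h1 t z
    have e1 : ∑ x ∈ A, ∑ y ∈ Aᶜ, (P ^ (t + 1)) x y = ∑ z, h z * ∑ y ∈ Aᶜ, P z y := by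
      calc ∑ x ∈ A, ∑ y ∈ Aᶜ, (P ^ (t + 1)) x y
          = ∑ x ∈ A, ∑ y ∈ Aᶜ, ∑ z, (P ^ t) x z * P z y := by
            refine sum_congr rfl fun x _ => sum_congr rfl fun y _ => ?_
            rw [pow_succ, Matrix.mul_apply]
        _ = ∑ x ∈ A, ∑ z, ∑ y ∈ Aᶜ, (P ^ t) x z * P z y :=
            sum_congr rfl fun x _ => sum_comm
        _ = ∑ z, ∑ x ∈ A, ∑ y ∈ Aᶜ, (P ^ t) x z * P z y := sum_comm
        _ = _ := by
            refine sum_congr rfl fun z _ => ?_
            rw [hh, sum_mul]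
            refine sum_congr rfl fun x _ => ?_
            rw [mul_sum]
    have e2 : ∀ z, ∑ y ∈ Aᶜ, P z y ≤ 1 := fun z => by
      rw [← h1 z]
      exact sum_le_sum_of_subset_of_nonneg (subset_univ _) fun y _ _ => h0 z y
    have e3 : ∑ z, h z * ∑ y ∈ Aᶜ, P z y
        = ∑ z ∈ A, h z * ∑ y ∈ Aᶜ, P z y + ∑ z ∈ Aᶜ, h z * ∑ y ∈ Aᶜ, P z y :=
      (sum_add_sum_compl A _).symm
    have e4 : ∑ z ∈ A, h z * ∑ y ∈ Aᶜ, P z y ≤ β := by
      refine le_trans (sum_le_sum fun z _ => ?_) hβ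
      have : 0 ≤ ∑ y ∈ Aᶜ, P z y := sum_nonneg fun y _ => h0 z y
      calc h z * ∑ y ∈ Aᶜ, P z y ≤ 1 * ∑ y ∈ Aᶜ, P z y := mul_le_mul_of_nonneg_right (hh1 z) this
        _ = _ := one_mul _
    have e5 : ∑ z ∈ Aᶜ, h z * ∑ y ∈ Aᶜ, P z y ≤ ∑ z ∈ Aᶜ, h z :=
      sum_le_sum fun z _ => by
        calc h z * ∑ y ∈ Aᶜ, P z y ≤ h z * 1 := mul_le_mul_of_nonneg_left (e2 z) (hh0 z)
          _ = _ := mul_one _
    have e6 : ∑ z ∈ Aᶜ, h z = ∑ x ∈ A, ∑ y ∈ Aᶜ, (P ^ t) x y := sum_comm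
    rw [e1, e3]
    push_cast
    linarith

/-- the smaller side of a cut with small flow is left slowly -/
lemma cut_le (h0 : ∀ x y, 0 ≤ P x y) (h1 : ∀ x, ∑ y, P x y = 1) (hs : P.transpose = P)
    (A : Finset α) (β : ℝ) (hβ : ∑ x ∈ A, ∑ y ∈ Aᶜ, P x y ≤ β) (hA : A.card ≤ Aᶜ.card) (t : ℕ)
    (hmix : ∀ x, tv ((P ^ t) x) (fun _ => 1 / (Fintype.card α : ℝ)) ≤ 1 / 4) :
    (A.card : ℝ) ≤ 4 * t * β := by
  rcases A.eq_empty_or_nonempty with rfl | ⟨x0, hx0⟩
  · have : 0 ≤ β := by simpa using hβ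
    simp only [card_empty, Nat.cast_zero]
    positivity
  have hα : (0 : ℝ) < Fintype.card α := by
    have : Nonempty α := ⟨x0⟩
    exact_mod_cast Fintype.card_pos
  have hc : A.card + Aᶜ.card = Fintype.card α := card_add_card_compl A
  have hhalf : (1 : ℝ) / 2 ≤ ∑ y ∈ Aᶜ, 1 / (Fintype.card α : ℝ) := by
    rw [sum_const, nsmul_eq_mul, mul_one_div, le_div_iff₀ hα]
    have : (Fintype.card α : ℝ) = A.card + Aᶜ.card := by exact_mod_cast hc.symm
    have h2 : (A.card : ℝ) ≤ Aᶜ.card := by exact_mod_cast hA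
    linarith
  have h2 : ∀ x ∈ A, (1 : ℝ) / 4 ≤ ∑ y ∈ Aᶜ, (P ^ t) x y := by
    intro x _
    have h3 := sub_le_tv (μ := (P ^ t) x) (ν := fun _ => 1 / (Fintype.card α : ℝ)) (by
      rw [pow_sum h1, sum_const, card_univ, nsmul_eq_mul, mul_one_div, div_self hα.ne']) Aᶜ
    have h4 := hmix x
    linarith
  have h5 : (A.card : ℝ) * (1 / 4) ≤ ∑ x ∈ A, ∑ y ∈ Aᶜ, (P ^ t) x y := by
    rw [← nsmul_eq_mul, ← sum_const]
    exact sum_le_sum h2
  have h6 := out_le h0 h1 hs A β hβ t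
  linarith

/-- **bottleneck bound** -/
theorem bottleneck (h0 : ∀ x y, 0 ≤ P x y) (h1 : ∀ x, ∑ y, P x y = 1) (hs : P.transpose = P)
    (A B : Finset α) (hAB : ∀ x ∈ A, ∀ y, y ∉ A → P x y ≠ 0 → y ∈ B) (m : ℕ)
    (hA : m ≤ A.card) (hA' : m ≤ Aᶜ.card) (t : ℕ)
    (hmix : ∀ x, tv ((P ^ t) x) (fun _ => 1 / (Fintype.card α : ℝ)) ≤ 1 / 4) :
    (m : ℝ) ≤ 4 * t * B.card := by
  have hβ : ∑ x ∈ A, ∑ y ∈ Aᶜ, P x y ≤ B.card := by
    calc ∑ x ∈ A, ∑ y ∈ Aᶜ, P x y = ∑ y ∈ Aᶜ, ∑ x ∈ A, P x y := sum_comm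
      _ ≤ ∑ y ∈ Aᶜ, (if y ∈ B then 1 else 0) := by
          refine sum_le_sum fun y hy => ?_
          split_ifs with hB
          · calc ∑ x ∈ A, P x y ≤ ∑ x, P x y :=
                  sum_le_sum_of_subset_of_nonneg (subset_univ _) fun x _ _ => h0 x y
              _ = ∑ x, P y x := sum_congr rfl fun x _ => by
                  calc P x y = P.transpose y x := rfl
                    _ = P y x := by rw [hs]
              _ = 1 := h1 y
          · refine (sum_eq_zero fun x hx => ?_).le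
            by_contra hne
            exact hB (hAB x hx y (mem_compl.1 hy) hne)
      _ ≤ ∑ y, (if y ∈ B then (1 : ℝ) else 0) :=
          sum_le_sum_of_subset_of_nonneg (subset_univ _) fun y _ _ => by split_ifs <;> norm_num
      _ = B.card := by simp
  rcases le_total A.card Aᶜ.card with h | h
  · have := cut_le h0 h1 hs A B.card hβ h t hmix
    have h2 : (m : ℝ) ≤ A.card := by exact_mod_cast hA
    linarith
  · have hPs : ∀ x y, P x y = P y x := fun x y => by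
      calc P x y = P.transpose y x := rfl
        _ = P y x := by rw [hs]
    have hβ' : ∑ x ∈ Aᶜ, ∑ y ∈ Aᶜᶜ, P x y ≤ B.card := by
      rw [compl_compl]
      refine le_trans (le_of_eq ?_) hβ
      calc ∑ x ∈ Aᶜ, ∑ y ∈ A, P x y = ∑ y ∈ A, ∑ x ∈ Aᶜ, P x y := sum_comm
        _ = ∑ x ∈ A, ∑ y ∈ Aᶜ, P x y :=
          sum_congr rfl fun x _ => sum_congr rfl fun y _ => hPs _ _
    have := cut_le h0 h1 hs Aᶜ B.card hβ' (by rw [compl_compl]; exact h) t hmix
    have h2 : (m : ℝ) ≤ Aᶜ.card := by exact_mod_cast hA'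
    linarith

end bottle

section kernel

variable {N : ℕ} {F : Finset (Finset (ℤ × ℤ))}

lemma stepF_eq_iff {T T' : TriF N F} {e : Finset (ℤ × ℤ)} (hne : T ≠ T') :
    stepF T e = T' ↔ step T.tri e = T'.tri := by
  constructor
  · intro h
    by_cases h1 : Has F (step T.tri e)
    · rw [← h, stepF, dif_pos h1]
    · rw [stepF, dif_neg h1] at h
      exact absurd h hne
  · intro h
    have h1 : Has F (step T.tri e) := by rw [h]; exact T'.has
    rw [stepF, dif_pos h1]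
    exact TriF.ext h

lemma kernelF_of_ne {T T' : TriF N F} (hne : T ≠ T') :
    kernelF N F T T' = kernel N T.tri T'.tri := by
  unfold kernelF kernel
  congr 2
  congr 1
  ext e
  rw [mem_filter, mem_filter, stepF_eq_iff hne]

theorem kernelF_symm (N : ℕ) (F : Finset (Finset (ℤ × ℤ))) :
    (kernelF N F).transpose = kernelF N F := by
  ext T T'
  rw [Matrix.transpose_apply]
  by_cases hne : T = T'
  · rw [hne]
  · rw [kernelF_of_ne hne, kernelF_of_ne (Ne.symm hne)]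
    calc kernel N T'.tri T.tri = (kernel N).transpose T.tri T'.tri := rfl
      _ = _ := by rw [kernel_symm]

lemma kernelF_nonneg (T T' : TriF N F) : 0 ≤ kernelF N F T T' := by
  unfold kernelF
  positivity

theorem kernelF_sum (hN : 1 ≤ N) (T : TriF N F) : ∑ T', kernelF N F T T' = 1 := by
  unfold kernelF
  rw [← sum_div, ← Nat.cast_sum, ← card_eq_sum_card_fiberwise (t := univ)
    (fun e _ => mem_coe.2 (mem_univ (stepF T e)))]
  apply div_self
  rw [T.tri.2.card]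
  exact_mod_cast (HH_pos hN).ne'

/-- adjacent triangulations differ by a flip -/
lemma flip_of_kernelF {T T' : TriF N F} (hne : T ≠ T') (h : kernelF N F T T' ≠ 0) :
    ∃ e, FlipAt T.tri.1 e T'.tri.1 := by
  rw [kernelF_of_ne hne] at h
  unfold kernel at h
  have h1 : (T.tri.1.filter fun e => step T.tri e = T'.tri).card ≠ 0 := by
    intro h0
    rw [h0] at h
    simp at h
  obtain ⟨e, he⟩ := card_ne_zero.1 h1
  rw [mem_filter] at he
  have hne' : T.tri ≠ T'.tri := fun h => hne (TriF.ext h)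
  exact ⟨e, (step_eq_iff hne').1 he.2⟩

end kernel

end Pool.Agent.LTF
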