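import Pool.Agent.Helper22.LTF.Left

/-!
# There are few triangulations without a spanning edge
-/

set_option autoImplicit false

namespace Pool.Agent.LTF

open Finset Pool.Agent.LT

variable {n w : ℕ}

lemma Sp_two {T : Tri (2 * n + w)} (h : Sp n w (ER T 2)) : Sp n w (ER T 0) := by
  obtain ⟨a, b, hab, h1, h2, h3, h4, h5, h6, h7⟩ := h
  refine ⟨ph (2 * (n : ℤ) + w) 2 b, ph (2 * (n : ℤ) + w) 2 a, ?_, ?_, ?_, ?_, ?_, ?_, ?_, ?_⟩
  · unfold ER at hab ⊢
    rw [pair_comm]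
    exact hab
  all_goals simp only [ph]
  all_goals omega

lemma Sp_three {T : Tri (2 * n + w)} (h : Sp n w (ER T 3)) : Sp n w (ER T 1) := by
  obtain ⟨a, b, hab, h1, h2, h3, h4, h5, h6, h7⟩ := h
  refine ⟨ph (2 * (n : ℤ) + w) 2 b, ph (2 * (n : ℤ) + w) 2 a, ?_, ?_, ?_, ?_, ?_, ?_, ?_, ?_⟩
  · unfold ER at hab ⊢
    rw [pair_comm]
    exact hab
  all_goals simp only [ph]
  all_goals omega

open Classical in
/-- the triangulations without spanning edges -/
noncomputable def Bs (n w : ℕ) : Finset (TriF (2 * n + w) (Fr n w)) :=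
  univ.filter fun T => ¬ Sp n w (ER T.tri 0) ∧ ¬ Sp n w (ER T.tri 1)

lemma not_Sp {T : TriF (2 * n + w) (Fr n w)} (hT : T ∈ Bs n w) (k : Fin 4) :
    ¬ Sp n w (ER T.tri k) := by
  classical
  unfold Bs at hT
  rw [mem_filter] at hT
  fin_cases k
  · exact hT.2.1
  · exact hT.2.2
  · exact fun h => hT.2.1 (Sp_two h)
  · exact fun h => hT.2.2 (Sp_three h)

open Classical in
/-- the steps of all strips of all arms -/
noncomputable def Ps (T : TriF (2 * n + w) (Fr n w)) : Finset (Fin 4 × Fin w × Fin n) :=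
  univ.filter fun x => PE (sg w x.1) (ER T.tri x.1) ((n : ℤ) + (x.2.1.val : ℤ)) ((n : ℤ) + 1 + (x.2.2.val : ℤ))

lemma card_Ps {T : TriF (2 * n + w) (Fr n w)} (hT : T ∈ Bs n w) :
    (Ps T).card ≤ 4 * w ^ 2 := by
  classical
  have h := card_le_mul_card_image_of_maps_to (s := Ps T) (t := (univ : Finset (Fin 4 × Fin w)))
    (f := fun x => (x.1, x.2.1)) (fun x _ => mem_univ _) w (by
      rintro ⟨k, j⟩ -
      refine le_trans ?_ ((ER_rel T.tri T.has k).card_steps (not_Sp hT k)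
        (j := (n : ℤ) + (j.val : ℤ)) (by omega) (by have := j.isLt; omega))
      refine card_le_card_of_injOn (fun x => x.2.2) ?_ ?_
      · rintro ⟨k', j', i⟩ hx
        rw [mem_coe, mem_filter, Ps, mem_filter] at hx
        obtain ⟨⟨-, hx1⟩, hx2⟩ := hx
        simp only [Prod.mk.injEq] at hx2
        obtain ⟨rfl, rfl⟩ := hx2
        rw [mem_coe, mem_filter]
        exact ⟨mem_univ _, hx1⟩
      · rintro ⟨k1, j1, i1⟩ hx ⟨k2, j2, i2⟩ hy hxy
        rw [mem_coe, mem_filter] at hx hy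
        have e1 := hx.2
        have e2 := hy.2
        simp only [Prod.mk.injEq] at e1 e2 hxy ⊢
        exact ⟨e1.1.trans e2.1.symm, e1.2.trans e2.2.symm, hxy⟩)
  calc (Ps T).card ≤ w * (univ : Finset (Fin 4 × Fin w)).card := h
    _ = 4 * w ^ 2 := by
        rw [card_univ, Fintype.card_prod, Fintype.card_fin, Fintype.card_fin]
        ring

/-- the midpoints (doubled) in the centre -/
noncomputable def Cm (n w : ℕ) : Finset (ℤ × ℤ) :=
  (HH (2 * n + w)).filter fun M => (2 * (n : ℤ) < M.1 ∧ M.1 < 2 * ((n : ℤ) + w)) ∧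
    (2 * (n : ℤ) < M.2 ∧ M.2 < 2 * ((n : ℤ) + w))

lemma card_Cm : (Cm n w).card ≤ 4 * w ^ 2 := by
  have h : Cm n w ⊆ Ioo (2 * (n : ℤ)) (2 * ((n : ℤ) + w)) ×ˢ Ioo (2 * (n : ℤ)) (2 * ((n : ℤ) + w)) := by
    intro M hM
    unfold Cm at hM
    rw [mem_filter] at hM
    rw [mem_product, mem_Ioo, mem_Ioo]
    exact hM.2
  refine (card_le_card h).trans ?_
  rw [card_product, Int.card_Ioo]
  have : (2 * ((n : ℤ) + w) - 2 * (n : ℤ) - 1).toNat ≤ 2 * w := by omega
  calc _ ≤ (2 * w) * (2 * w) := Nat.mul_le_mul this this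
    _ = 4 * w ^ 2 := by ring

/-- outside the centre the edges are determined by the steps -/
lemma agree_all {T T' : TriF (2 * n + w) (Fr n w)} (hP : Ps T = Ps T')
    (M : HH (2 * n + w)) (hM : (M : ℤ × ℤ) ∉ Cm n w) : edgeAt T.tri M = edgeAt T'.tri M := by
  classical
  obtain ⟨x, y, hxy, e⟩ := (T.tri.2.edge _ (edgeAt_mem T.tri M)).exists_pair
  have hmem := edgeAt_mem T.tri M
  have hsm := sm_edgeAt T.tri M
  rw [e] at hmem hsm
  rw [sm_pair hxy] at hsm
  have s1 : x.1 + y.1 = (M : ℤ × ℤ).1 := congrArg Prod.fst hsm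
  have s2 : x.2 + y.2 = (M : ℤ × ℤ).2 := congrArg Prod.snd hsm
  -- a symmetry which moves the midpoint to the left
  obtain ⟨k, hk⟩ : ∃ k : Fin 4, (ph (2 * (n : ℤ) + w) k x).1 + (ph (2 * (n : ℤ) + w) k y).1 ≤ 2 * n := by
    have h1 : ¬ ((2 * (n : ℤ) < (M : ℤ × ℤ).1 ∧ (M : ℤ × ℤ).1 < 2 * ((n : ℤ) + w)) ∧
        (2 * (n : ℤ) < (M : ℤ × ℤ).2 ∧ (M : ℤ × ℤ).2 < 2 * ((n : ℤ) + w))) := by
      intro h
      exact hM (by unfold Cm; exact mem_filter.2 ⟨M.2, h⟩)
    have h2 : (M : ℤ × ℤ).1 ≤ 2 * n ∨ (M : ℤ × ℤ).2 ≤ 2 * n ∨ 2 * ((n : ℤ) + w) ≤ (M : ℤ × ℤ).1 ∨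
        2 * ((n : ℤ) + w) ≤ (M : ℤ × ℤ).2 := by omega
    rcases h2 with h2 | h2 | h2 | h2
    · exact ⟨0, by simp only [ph]; omega⟩
    · exact ⟨1, by simp only [ph]; omega⟩
    · exact ⟨2, by simp only [ph]; omega⟩
    · exact ⟨3, by simp only [ph]; omega⟩
  have hE := ER_rel T.tri T.has k
  have hE' := ER_rel T'.tri T'.has k
  have hab : ER T.tri k (ph (2 * (n : ℤ) + w) k x) (ph (2 * (n : ℤ) + w) k y) := by
    unfold ER
    rw [ph_ph, ph_ph]
    exact hmem
  have hab' := hE.agree hE' (by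
    intro j s hj1 hj2 hs1 hs2
    have h1 : ∀ x : Fin 4 × Fin w × Fin n, x ∈ Ps T ↔ x ∈ Ps T' := fun x => by rw [hP]
    have h2 := h1 (k, ⟨(j - n).toNat, by omega⟩, ⟨(s - (n + 1)).toNat, by omega⟩)
    unfold Ps at h2
    rw [mem_filter, mem_filter] at h2
    have e1 : (n : ℤ) + ((j - n).toNat : ℤ) = j := by omega
    have e2 : (n : ℤ) + 1 + ((s - (n + 1)).toNat : ℤ) = s := by omega
    simp only [mem_univ, true_and] at h2
    rw [e1, e2] at h2
    exact h2) hab hk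
  unfold ER at hab'
  rw [ph_ph, ph_ph, ← e] at hab'
  exact T'.tri.2.inj hab' (edgeAt_mem _ _) ((sm_edgeAt T.tri M).trans (sm_edgeAt T'.tri M).symm)

open Classical in
/-- the triangulations without spanning edges with given steps -/
lemma card_fibre (P0 : Finset (Fin 4 × Fin w × Fin n)) :
    ((Bs n w).filter fun T => Ps T = P0).card ≤ 2 ^ (4 * w ^ 2) := by
  have hsub : ∀ M : Cm n w, (M : ℤ × ℤ) ∈ HH (2 * n + w) := fun M => (mem_filter.1 M.2).1
  set r : TriF (2 * n + w) (Fr n w) → (Cm n w → Finset (ℤ × ℤ)) :=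
    fun T M => edgeAt T.tri ⟨M, hsub M⟩ with hr
  set S := (Bs n w).filter fun T => Ps T = P0 with hS
  have hPS : ∀ T ∈ S, ∀ T' ∈ S, Ps T = Ps T' := fun T hT T' hT' =>
    (mem_filter.1 hT).2.trans (mem_filter.1 hT').2.symm
  -- agreement on the centre before `M` gives agreement everywhere before `M`
  have ext : ∀ T ∈ S, ∀ T' ∈ S, ∀ Q : ℤ × ℤ → Prop,
      (∀ j : Cm n w, Q j → r T j = r T' j) →
      ∀ M' : HH (2 * n + w), Q M' → edgeAt T.tri M' = edgeAt T'.tri M' := by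
    intro T hT T' hT' Q h M' hM'
    by_cases hC : (M' : ℤ × ℤ) ∈ Cm n w
    · exact h ⟨M', hC⟩ hM'
    · exact agree_all (hPS T hT T' hT') M' hC
  have hinj : Set.InjOn r S := by
    intro T hT T' hT' h
    apply TriF.ext
    apply edgeAt_injective
    funext M'
    exact ext T (mem_coe.1 hT) T' (mem_coe.1 hT') (fun _ => True) (fun j _ => by rw [h]) M' trivial
  rw [← card_image_of_injOn hinj]
  refine (card_le_two_pow (fun M : Cm n w => toLex (M : ℤ × ℤ)) _ ?_).trans ?_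
  · intro M f hf g hg k hk hfg hfk
    obtain ⟨T, hT, rfl⟩ := mem_image.1 hf
    obtain ⟨T', hT', rfl⟩ := mem_image.1 hg
    obtain ⟨T'', hT'', rfl⟩ := mem_image.1 hk
    have a1 := ext T hT T' hT' (fun j => toLex j < toLex (M : ℤ × ℤ)) hfg
    have a2 := ext T hT T'' hT'' (fun j => toLex j < toLex (M : ℤ × ℤ)) hfk
    have a3 : ∀ M' : HH (2 * n + w), toLex (M' : ℤ × ℤ) < toLex (M : ℤ × ℤ) →
      edgeAt T'.tri M' = edgeAt T''.tri M' := fun M' h => (a1 M' h).symm.trans (a2 M' h)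
    set M0 : HH (2 * n + w) := ⟨M, hsub M⟩ with hM0
    by_contra hcon
    push Not at hcon
    obtain ⟨n1, n2, n3⟩ := hcon
    obtain ⟨a, a', ha, ea⟩ := (T.tri.2.edge _ (edgeAt_mem T.tri M0)).exists_pair
    obtain ⟨b, b', hb, eb⟩ := (T'.tri.2.edge _ (edgeAt_mem T'.tri M0)).exists_pair
    obtain ⟨c, c', hc, ec⟩ := (T''.tri.2.edge _ (edgeAt_mem T''.tri M0)).exists_pair
    have s1 := sm_edgeAt T.tri M0
    have s2 := sm_edgeAt T'.tri M0
    have s3 := sm_edgeAt T''.tri M0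
    rw [ea, sm_pair ha] at s1
    rw [eb, sm_pair hb] at s2
    rw [ec, sm_pair hc] at s3
    have h4 := three' (s1.trans s2.symm) (s1.trans s3.symm)
      (det_of_agree T.tri T'.tri M0 a1 n1 ea eb) (det_of_agree T.tri T''.tri M0 a2 n2 ea ec)
      (det_of_agree T'.tri T''.tri M0 a3 n3 eb ec)
    have h5 := M0.2
    rw [s1] at h4
    rw [mem_HH] at h5
    exact h5.2 h4
  · rw [Fintype.card_coe]
    exact Nat.pow_le_pow_right (by norm_num) card_Cm

/-- few subsets have few elements -/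
lemma card_small {ι : Type*} [Fintype ι] [DecidableEq ι] (m : ℕ) :
    ((univ : Finset (Finset ι)).filter fun P => P.card ≤ m).card
      ≤ 2 ^ (6 * m + Fintype.card ι / 32 + 1) := by
  set M := Fintype.card ι with hM
  have h1 : (((univ : Finset (Finset ι)).filter fun P => P.card ≤ m).card : ℝ) * (1 / 64) ^ m
      ≤ (1 / 64 + 1) ^ M := by
    have h2 := Finset.sum_pow_mul_eq_add_pow (1 / 64 : ℝ) 1 (univ : Finset ι)
    rw [card_univ, ← hM] at h2
    rw [← h2, ← nsmul_eq_mul, ← sum_const]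
    calc ∑ _P ∈ (univ : Finset (Finset ι)).filter (fun P => P.card ≤ m), (1 / 64 : ℝ) ^ m
        ≤ ∑ P ∈ (univ : Finset (Finset ι)).filter (fun P => P.card ≤ m),
          (1 / 64 : ℝ) ^ P.card * 1 ^ (M - P.card) := by
          refine sum_le_sum fun P hP => ?_
          rw [one_pow, mul_one]
          exact pow_le_pow_of_le_one (by norm_num) (by norm_num) (mem_filter.1 hP).2
      _ ≤ ∑ P ∈ (univ : Finset ι).powerset,
          (1 / 64 : ℝ) ^ P.card * 1 ^ (M - P.card) := by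
          refine sum_le_sum_of_subset_of_nonneg (fun P _ => mem_powerset.2 (subset_univ _))
            fun P _ _ => by positivity
  have h3 : (1 / 64 + 1 : ℝ) ^ M ≤ 2 ^ (M / 32 + 1) := by
    calc (1 / 64 + 1 : ℝ) ^ M ≤ (1 / 64 + 1 : ℝ) ^ (32 * (M / 32 + 1)) :=
          pow_le_pow_right₀ (by norm_num) (by omega)
      _ = ((1 / 64 + 1 : ℝ) ^ 32) ^ (M / 32 + 1) := pow_mul _ _ _
      _ ≤ 2 ^ (M / 32 + 1) := pow_le_pow_left₀ (by positivity) (by norm_num) _
  have h4 : (((univ : Finset (Finset ι)).filter fun P => P.card ≤ m).card : ℝ)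
      ≤ 2 ^ (6 * m + M / 32 + 1) := by
    have h5 : (((univ : Finset (Finset ι)).filter fun P => P.card ≤ m).card : ℝ)
        = (((univ : Finset (Finset ι)).filter fun P => P.card ≤ m).card : ℝ) * (1 / 64) ^ m * 64 ^ m := by
      rw [mul_assoc, ← mul_pow]
      norm_num
    rw [h5]
    calc _ ≤ (2 : ℝ) ^ (M / 32 + 1) * 64 ^ m := mul_le_mul_of_nonneg_right (h1.trans h3) (by positivity)
      _ = 2 ^ (6 * m + M / 32 + 1) := by
          rw [show (64 : ℝ) = 2 ^ 6 by norm_num, ← pow_mul, ← pow_add]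
          congr 1
          ring
  exact_mod_cast h4

/-- **few triangulations have no spanning edge** -/
theorem card_Bs (n w : ℕ) : (Bs n w).card ≤ 2 ^ (28 * w ^ 2 + 4 * (w * n) / 32 + 1) := by
  classical
  have h := card_le_mul_card_image_of_maps_to (s := Bs n w)
    (t := (univ : Finset (Finset (Fin 4 × Fin w × Fin n))).filter fun P => P.card ≤ 4 * w ^ 2)
    (f := Ps) (fun T hT => mem_filter.2 ⟨mem_univ _, card_Ps hT⟩) (2 ^ (4 * w ^ 2))
    (fun P0 _ => card_fibre P0)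
  refine h.trans ?_
  have h2 := card_small (ι := Fin 4 × Fin w × Fin n) (4 * w ^ 2)
  rw [Fintype.card_prod, Fintype.card_prod, Fintype.card_fin, Fintype.card_fin, Fintype.card_fin] at h2
  calc 2 ^ (4 * w ^ 2) * _ ≤ 2 ^ (4 * w ^ 2) * 2 ^ (6 * (4 * w ^ 2) + 4 * (w * n) / 32 + 1) :=
        Nat.mul_le_mul_left _ h2
    _ = 2 ^ (28 * w ^ 2 + 4 * (w * n) / 32 + 1) := by
        rw [← pow_add]
        congr 1
        ring

end Pool.Agent.LTF
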