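import Pool.Agent.Helper22.LTF.Bottle

/-!
# The frozen edges, and the symmetric relations `E` with the geometric properties of a triangulation

The box is `[0, N] ^ 2` with `N = 2 * n + w`; the centre is `[n, n + w] ^ 2`.
-/

set_option autoImplicit false

namespace Pool.Agent.LTF

open Finset Pool.Agent.LT

/-! ### segments which do not cross -/

lemma nc_det {a b c d : ℤ × ℤ}
    (h : |(b.1 - a.1) * (d.2 - c.2) - (b.2 - a.2) * (d.1 - c.1)| ≤ 1) : ¬ Cross a b c d := by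
  intro hc
  have h1 := hc.1
  have h2 : (b.1 - a.1) * (d.2 - c.2) - (b.2 - a.2) * (d.1 - c.1) = D a b d - D a b c := by
    unfold D; ring
  rw [h2, abs_le] at h
  rcases mul_neg_iff.1 h1 with ⟨hx, hy⟩ | ⟨hx, hy⟩ <;> omega

lemma nc_sepx {a b c d : ℤ × ℤ} (m : ℤ) (ha : a.1 ≤ m) (hb : b.1 ≤ m) (hc : m ≤ c.1)
    (hd : m ≤ d.1) : ¬ Cross a b c d := by
  rintro ⟨h1, h2⟩
  set α := D c d a with hα
  set β := D c d b with hβ
  set γ := D a b c with hγ
  set δ := D a b d with hδ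
  have e1 : α - β = δ - γ := by rw [hα, hβ, hγ, hδ]; unfold D; ring
  have e2 : α * (b.1 - m) - β * (a.1 - m) = δ * (c.1 - m) - γ * (d.1 - m) := by
    rw [hα, hβ, hγ, hδ]; unfold D; ring
  have hz : a.1 = m → b.1 = m → c.1 = m → False := by
    intro h3 h4 h5
    have : γ = 0 := by
      rw [hγ]; unfold D; rw [h3, h4, h5]; ring
    rw [this] at h1
    simp at h1
  have zero : ∀ x y z t p q r s : ℤ, 0 < x → 0 < y → 0 < z → 0 < t → p ≤ 0 → q ≤ 0 → 0 ≤ r →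
      0 ≤ s → x * p + y * q = z * r + t * s → p = 0 ∧ q = 0 ∧ r = 0 := by
    intro x y z t p q r s hx hy hz ht hp hq hr hs h
    have g1 : x * p ≤ 0 := mul_nonpos_of_nonneg_of_nonpos hx.le hp
    have g2 : y * q ≤ 0 := mul_nonpos_of_nonneg_of_nonpos hy.le hq
    have g3 : 0 ≤ z * r := mul_nonneg hz.le hr
    have g4 : 0 ≤ t * s := mul_nonneg ht.le hs
    refine ⟨?_, ?_, ?_⟩
    · have : x * p = 0 := by linarith
      rcases mul_eq_zero.1 this with h | h <;> omega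
    · have : y * q = 0 := by linarith
      rcases mul_eq_zero.1 this with h | h <;> omega
    · have : z * r = 0 := by linarith
      rcases mul_eq_zero.1 this with h | h <;> omega
  rcases mul_neg_iff.1 h2 with ⟨ha', hb'⟩ | ⟨ha', hb'⟩
  · rcases mul_neg_iff.1 h1 with ⟨hc', hd'⟩ | ⟨hc', hd'⟩
    · omega
    · obtain ⟨g1, g2, g3⟩ := zero α (-β) δ (-γ) (b.1 - m) (a.1 - m) (c.1 - m) (d.1 - m) ha'
        (by omega) hd' (by omega) (by omega) (by omega) (by omega) (by omega) (by linarith)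
      exact hz (by omega) (by omega) (by omega)
  · rcases mul_neg_iff.1 h1 with ⟨hc', hd'⟩ | ⟨hc', hd'⟩
    · obtain ⟨g1, g2, g3⟩ := zero (-α) β (-δ) γ (b.1 - m) (a.1 - m) (c.1 - m) (d.1 - m)
        (by omega) hb' (by omega) hc' (by omega) (by omega) (by omega) (by omega) (by linarith)
      exact hz (by omega) (by omega) (by omega)
    · omega

lemma D_sw (a b c : ℤ × ℤ) : D (a.2, a.1) (b.2, b.1) (c.2, c.1) = - D a b c := by
  unfold D; ring

lemma cross_sw (a b c d : ℤ × ℤ) :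
    Cross (a.2, a.1) (b.2, b.1) (c.2, c.1) (d.2, d.1) ↔ Cross a b c d := by
  unfold Cross
  rw [D_sw, D_sw, D_sw, D_sw, neg_mul_neg, neg_mul_neg]

lemma nc_sepy {a b c d : ℤ × ℤ} (m : ℤ) (ha : a.2 ≤ m) (hb : b.2 ≤ m) (hc : m ≤ c.2)
    (hd : m ≤ d.2) : ¬ Cross a b c d := by
  rw [← cross_sw]
  exact nc_sepx m ha hb hc hd

lemma nc_chain {u v u' v' y y' : ℤ} (h : (u ≤ u' ∧ v ≤ v') ∨ (u' ≤ u ∧ v' ≤ v)) :
    ¬ Cross (u, y) (v, y') (u', y) (v', y') := by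
  rintro ⟨h1, -⟩
  have e : D (u, y) (v, y') (u', y) * D (u, y) (v, y') (v', y')
      = (y' - y) ^ 2 * ((u' - u) * (v' - v)) := by unfold D; ring
  rw [e] at h1
  have h2 : 0 ≤ (u' - u) * (v' - v) := by
    rcases h with ⟨h3, h4⟩ | ⟨h3, h4⟩
    · exact mul_nonneg (by omega) (by omega)
    · exact mul_nonneg_of_nonpos_of_nonpos (by omega) (by omega)
  have : 0 ≤ (y' - y) ^ 2 * ((u' - u) * (v' - v)) := mul_nonneg (sq_nonneg _) h2
  omega

/-- two segments in a strip which are not in order cross -/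
lemma cross_strip {u v u' v' y y' : ℤ} (hy : y ≠ y') (h1 : u < u') (h2 : v' < v) :
    Cross (u, y) (v, y') (u', y) (v', y') := by
  have hy2 : 0 < (y' - y) ^ 2 := by
    have : y' - y ≠ 0 := sub_ne_zero.2 (Ne.symm hy)
    positivity
  have h3 : (u' - u) * (v' - v) < 0 := mul_neg_of_pos_of_neg (by omega) (by omega)
  constructor
  · have e : D (u, y) (v, y') (u', y) * D (u, y) (v, y') (v', y')
        = (y' - y) ^ 2 * ((u' - u) * (v' - v)) := by unfold D; ring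
    rw [e]
    exact mul_neg_of_pos_of_neg hy2 h3
  · have e : D (u', y) (v', y') (u, y) * D (u', y) (v', y') (v, y')
        = (y' - y) ^ 2 * ((u' - u) * (v' - v)) := by unfold D; ring
    rw [e]
    exact mul_neg_of_pos_of_neg hy2 h3

/-! ### the frozen edges -/

/-- the frozen edges from `p` to `q` (box `[0, 2 n + w] ^ 2`, centre `[n, n + w] ^ 2`): horizontal
unit edges left and right of the centre columns, vertical unit edges below and above the centre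
rows, the diagonals of the unit squares in the four corners, and in every strip of height (width)
one of the four arms the fan of the edges from the outer end of the line of the strip with the
parity of `σ` (left and lower arm) or of `σ + 1` (right and upper arm) -/
def Fz (n w : ℕ) (σ : ℤ) (p q : ℤ × ℤ) : Prop :=
  (q.1 = p.1 + 1 ∧ q.2 = p.2 ∧ (p.1 < n ∨ (n : ℤ) + w ≤ p.1)) ∨
  (q.1 = p.1 ∧ q.2 = p.2 + 1 ∧ (p.2 < n ∨ (n : ℤ) + w ≤ p.2)) ∨
  (q.1 = p.1 + 1 ∧ q.2 = p.2 + 1 ∧ (p.1 < n ∨ (n : ℤ) + w ≤ p.1) ∧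
    (p.2 < n ∨ (n : ℤ) + w ≤ p.2)) ∨
  ((q.2 = p.2 + 1 ∨ q.2 = p.2 - 1) ∧ (p.2 + σ) % 2 = 0 ∧ (n : ℤ) ≤ p.2 ∧ (n : ℤ) ≤ q.2 ∧
    p.2 ≤ (n : ℤ) + w ∧ q.2 ≤ (n : ℤ) + w ∧
    ((p.1 = 0 ∧ q.1 ≤ n) ∨ (q.1 = 2 * (n : ℤ) + w ∧ (n : ℤ) + w ≤ p.1))) ∨
  ((q.1 = p.1 + 1 ∨ q.1 = p.1 - 1) ∧ (p.1 + σ) % 2 = 0 ∧ (n : ℤ) ≤ p.1 ∧ (n : ℤ) ≤ q.1 ∧
    p.1 ≤ (n : ℤ) + w ∧ q.1 ≤ (n : ℤ) + w ∧
    ((p.2 = 0 ∧ q.2 ≤ n) ∨ (q.2 = 2 * (n : ℤ) + w ∧ (n : ℤ) + w ≤ p.2)))

open Classical in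
/-- the set of the frozen edges -/
noncomputable def Fr (n w : ℕ) : Finset (Finset (ℤ × ℤ)) :=
  ((grid (2 * n + w) ×ˢ grid (2 * n + w)).filter fun pq => Fz n w 0 pq.1 pq.2).image
    fun pq => {pq.1, pq.2}

lemma mem_Fr {n w : ℕ} {p q : ℤ × ℤ} (hp : p ∈ grid (2 * n + w)) (hq : q ∈ grid (2 * n + w))
    (h : Fz n w 0 p q) : ({p, q} : Finset (ℤ × ℤ)) ∈ Fr n w := by
  classical
  unfold Fr
  exact mem_image.2 ⟨(p, q), mem_filter.2 ⟨mem_product.2 ⟨hp, hq⟩, h⟩, rfl⟩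

/-- the symmetries of the frozen set: identity, transposition, rotation, and their product -/
def ph (N : ℤ) (k : Fin 4) (p : ℤ × ℤ) : ℤ × ℤ :=
  match k with
  | 0 => p
  | 1 => (p.2, p.1)
  | 2 => (N - p.1, N - p.2)
  | 3 => (N - p.2, N - p.1)

lemma ph_ph (N : ℤ) (k : Fin 4) (p : ℤ × ℤ) : ph N k (ph N k p) = p := by
  fin_cases k <;> simp [ph]

lemma ph_inj (N : ℤ) (k : Fin 4) {p q : ℤ × ℤ} (h : ph N k p = ph N k q) : p = q := by
  rw [← ph_ph N k p, h, ph_ph]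

lemma ph_mem {N : ℕ} (k : Fin 4) {p : ℤ × ℤ} (h : p ∈ grid N) : ph N k p ∈ grid N := by
  rw [mem_grid] at h ⊢
  fin_cases k <;> simp only [ph] <;> omega

lemma cross_ph (N : ℤ) (k : Fin 4) (a b c d : ℤ × ℤ) :
    Cross (ph N k a) (ph N k b) (ph N k c) (ph N k d) ↔ Cross a b c d := by
  have rot : ∀ a b c : ℤ × ℤ, D (N - a.1, N - a.2) (N - b.1, N - b.2) (N - c.1, N - c.2) = D a b c := by
    intro a b c; unfold D; ring
  have rot' : ∀ a b c : ℤ × ℤ, D (N - a.2, N - a.1) (N - b.2, N - b.1) (N - c.2, N - c.1)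
      = - D a b c := by
    intro a b c; unfold D; ring
  fin_cases k
  · rfl
  · exact cross_sw a b c d
  · simp only [ph, Cross, rot]
  · simp only [ph, Cross, rot', neg_mul_neg]

/-- the parity of the frozen set seen through a symmetry -/
def sg (w : ℕ) (k : Fin 4) : ℤ :=
  match k with
  | 0 => 0
  | 1 => 0
  | 2 => w + 1
  | 3 => w + 1

/-- the frozen set seen through a symmetry, back -/
lemma Fz_back {n w : ℕ} (k : Fin 4) {p q : ℤ × ℤ} (h : Fz n w (sg w k) p q) :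
    Fz n w 0 (ph (2 * (n : ℤ) + w) k p) (ph (2 * (n : ℤ) + w) k q) ∨
      Fz n w 0 (ph (2 * (n : ℤ) + w) k q) (ph (2 * (n : ℤ) + w) k p) := by
  fin_cases k
  · left; exact h
  · left
    simp only [ph]
    rcases h with ⟨h1, h2, h3⟩ | ⟨h1, h2, h3⟩ | ⟨h1, h2, h3, h4⟩ | ⟨h1, h2, h3, h4, h5, h6, h7⟩ |
      ⟨h1, h2, h3, h4, h5, h6, h7⟩
    · exact Or.inr (Or.inl ⟨h2, h1, h3⟩)
    · exact Or.inl ⟨h2, h1, h3⟩
    · exact Or.inr (Or.inr (Or.inl ⟨h2, h1, h4, h3⟩))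
    · exact Or.inr (Or.inr (Or.inr (Or.inr ⟨h1, h2, h3, h4, h5, h6, h7⟩)))
    · exact Or.inr (Or.inr (Or.inr (Or.inl ⟨h1, h2, h3, h4, h5, h6, h7⟩)))
  · right
    simp only [ph]
    simp only [sg] at h
    rcases h with ⟨h1, h2, h3⟩ | ⟨h1, h2, h3⟩ | ⟨h1, h2, h3, h4⟩ | ⟨h1, h2, h3, h4, h5, h6, h7⟩ |
      ⟨h1, h2, h3, h4, h5, h6, h7⟩
    · exact Or.inl ⟨by omega, by omega, by omega⟩
    · exact Or.inr (Or.inl ⟨by omega, by omega, by omega⟩)
    · exact Or.inr (Or.inr (Or.inl ⟨by omega, by omega, by omega, by omega⟩))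
    · refine Or.inr (Or.inr (Or.inr (Or.inl ⟨by omega, by omega, by omega, by omega, by omega,
        by omega, ?_⟩)))
      rcases h7 with ⟨h7, h8⟩ | ⟨h7, h8⟩
      · exact Or.inr ⟨by omega, by omega⟩
      · exact Or.inl ⟨by omega, by omega⟩
    · refine Or.inr (Or.inr (Or.inr (Or.inr ⟨by omega, by omega, by omega, by omega, by omega,
        by omega, ?_⟩)))
      rcases h7 with ⟨h7, h8⟩ | ⟨h7, h8⟩
      · exact Or.inr ⟨by omega, by omega⟩
      · exact Or.inl ⟨by omega, by omega⟩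
  · right
    simp only [ph]
    simp only [sg] at h
    rcases h with ⟨h1, h2, h3⟩ | ⟨h1, h2, h3⟩ | ⟨h1, h2, h3, h4⟩ | ⟨h1, h2, h3, h4, h5, h6, h7⟩ |
      ⟨h1, h2, h3, h4, h5, h6, h7⟩
    · exact Or.inr (Or.inl ⟨by omega, by omega, by omega⟩)
    · exact Or.inl ⟨by omega, by omega, by omega⟩
    · exact Or.inr (Or.inr (Or.inl ⟨by omega, by omega, by omega, by omega⟩))
    · refine Or.inr (Or.inr (Or.inr (Or.inr ⟨by omega, by omega, by omega, by omega, by omega,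
        by omega, ?_⟩)))
      rcases h7 with ⟨h7, h8⟩ | ⟨h7, h8⟩
      · exact Or.inr ⟨by omega, by omega⟩
      · exact Or.inl ⟨by omega, by omega⟩
    · refine Or.inr (Or.inr (Or.inr (Or.inl ⟨by omega, by omega, by omega, by omega, by omega,
        by omega, ?_⟩)))
      rcases h7 with ⟨h7, h8⟩ | ⟨h7, h8⟩
      · exact Or.inr ⟨by omega, by omega⟩
      · exact Or.inl ⟨by omega, by omega⟩

/-- the properties of the relation `{a, b} ∈ T` which are used -/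
structure Rel (n w : ℕ) (σ : ℤ) (E : ℤ × ℤ → ℤ × ℤ → Prop) : Prop where
  symm : ∀ a b, E a b → E b a
  mem : ∀ a b, E a b → a ∈ grid (2 * n + w)
  nc : ∀ a b c d, E a b → E c d → ¬ Cross a b c d
  prim : ∀ a b, E a b → ∃ v : ℤ × ℤ, (b.1 - a.1) * v.2 - (b.2 - a.2) * v.1 = 1
  uniq : ∀ a b c d, E a b → E c d → a.1 + b.1 = c.1 + d.1 → a.2 + b.2 = c.2 + d.2 →
    (a = c ∧ b = d) ∨ (a = d ∧ b = c)
  surj : ∀ M ∈ HH (2 * n + w), ∃ a b, E a b ∧ a.1 + b.1 = M.1 ∧ a.2 + b.2 = M.2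
  frozen : ∀ a b, a ∈ grid (2 * n + w) → b ∈ grid (2 * n + w) → Fz n w σ a b → E a b

/-- the relation of a triangulation, seen through a symmetry -/
def ER {n w : ℕ} (T : Tri (2 * n + w)) (k : Fin 4) (a b : ℤ × ℤ) : Prop :=
  ({ph (2 * (n : ℤ) + w) k a, ph (2 * (n : ℤ) + w) k b} : Finset (ℤ × ℤ)) ∈ T.1

theorem ER_rel {n w : ℕ} (T : Tri (2 * n + w)) (hT : Has (Fr n w) T)
    (k : Fin 4) : Rel n w (sg w k) (ER T k) := by
  have hN : ((2 * n + w : ℕ) : ℤ) = 2 * (n : ℤ) + w := by push_cast; ring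
  have hmem : ∀ {p : ℤ × ℤ}, p ∈ grid (2 * n + w) → ph (2 * (n : ℤ) + w) k p ∈ grid (2 * n + w) := by
    intro p hp
    rw [← hN]
    exact ph_mem k hp
  have hmem' : ∀ {p : ℤ × ℤ}, ph (2 * (n : ℤ) + w) k p ∈ grid (2 * n + w) → p ∈ grid (2 * n + w) := by
    intro p hp
    have := hmem hp
    rwa [ph_ph] at this
  refine ⟨?_, ?_, ?_, ?_, ?_, ?_, ?_⟩
  · intro a b h
    unfold ER at h ⊢
    rwa [pair_comm]
  · intro a b h
    exact hmem' ((T.2.edge _ h).sub (by simp))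
  · intro a b c d h1 h2 h3
    rw [← cross_ph (2 * (n : ℤ) + w) k] at h3
    exact T.2.fam.nc _ _ _ _ h1 h2 h3
  · intro a b h
    obtain ⟨v, hv⟩ := exists_basis (T.2.edge _ h)
    fin_cases k
    · exact ⟨v, hv⟩
    · refine ⟨(-v.2, -v.1), ?_⟩
      simp only [ph] at hv ⊢
      linarith
    · refine ⟨(-v.1, -v.2), ?_⟩
      simp only [ph] at hv ⊢
      linarith
    · refine ⟨(v.2, v.1), ?_⟩
      simp only [ph] at hv ⊢
      linarith
  · intro a b c d h1 h2 h3 h4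
    have h5 := T.2.mid_unique h1 h2 (by
      fin_cases k <;> simp only [ph] <;> omega) (by
      fin_cases k <;> simp only [ph] <;> omega)
    have hab := T.2.ne h1
    have ha : ph (2 * (n : ℤ) + w) k a ∈ ({ph (2 * (n : ℤ) + w) k c, ph (2 * (n : ℤ) + w) k d} :
        Finset (ℤ × ℤ)) := by rw [← h5]; simp
    have hb : ph (2 * (n : ℤ) + w) k b ∈ ({ph (2 * (n : ℤ) + w) k c, ph (2 * (n : ℤ) + w) k d} :
        Finset (ℤ × ℤ)) := by rw [← h5]; simp
    rw [mem_insert, mem_singleton] at ha hb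
    rcases ha with ha | ha <;> rcases hb with hb | hb
    · exact absurd (ha.trans hb.symm) hab
    · exact Or.inl ⟨ph_inj _ _ ha, ph_inj _ _ hb⟩
    · exact Or.inr ⟨ph_inj _ _ ha, ph_inj _ _ hb⟩
    · exact absurd (ha.trans hb.symm) hab
  · intro M hM
    rw [mem_HH] at hM
    push_cast at hM
    have key : ∀ M' : ℤ × ℤ, M' ∈ HH (2 * n + w) → ∃ a b : ℤ × ℤ, {a, b} ∈ T.1 ∧
        a.1 + b.1 = M'.1 ∧ a.2 + b.2 = M'.2 := by
      intro M' hM'
      obtain ⟨e, he, hs⟩ := T.2.surj hM'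
      obtain ⟨a, b, hab, rfl⟩ := (T.2.edge _ he).exists_pair
      rw [sm_pair hab] at hs
      exact ⟨a, b, he, congrArg Prod.fst hs, congrArg Prod.snd hs⟩
    have fin : ∀ M' : ℤ × ℤ, M' ∈ HH (2 * n + w) →
        (∀ a b : ℤ × ℤ, a.1 + b.1 = M'.1 → a.2 + b.2 = M'.2 →
          (ph (2 * (n : ℤ) + w) k a).1 + (ph (2 * (n : ℤ) + w) k b).1 = M.1 ∧
          (ph (2 * (n : ℤ) + w) k a).2 + (ph (2 * (n : ℤ) + w) k b).2 = M.2) →
        ∃ a b, ER T k a b ∧ a.1 + b.1 = M.1 ∧ a.2 + b.2 = M.2 := by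
      intro M' hM' h
      obtain ⟨a, b, hab, h1, h2⟩ := key M' hM'
      refine ⟨ph (2 * (n : ℤ) + w) k a, ph (2 * (n : ℤ) + w) k b, ?_, h a b h1 h2⟩
      unfold ER
      rw [ph_ph, ph_ph]
      exact hab
    fin_cases k
    · exact fin M (by rw [mem_HH]; push_cast; exact hM) fun a b h1 h2 => ⟨h1, h2⟩
    · refine fin (M.2, M.1) (by rw [mem_HH]; push_cast; omega) fun a b h1 h2 => ?_
      simp only [ph] at h1 h2 ⊢
      omega
    · refine fin (2 * (2 * (n : ℤ) + w) - M.1, 2 * (2 * (n : ℤ) + w) - M.2)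
        (by rw [mem_HH]; push_cast; omega) fun a b h1 h2 => ?_
      simp only [ph] at h1 h2 ⊢
      omega
    · refine fin (2 * (2 * (n : ℤ) + w) - M.2, 2 * (2 * (n : ℤ) + w) - M.1)
        (by rw [mem_HH]; push_cast; omega) fun a b h1 h2 => ?_
      simp only [ph] at h1 h2 ⊢
      omega
  · intro a b ha hb h
    unfold ER
    rcases Fz_back k h with h1 | h1
    · exact hT (mem_Fr (hmem ha) (hmem hb) h1)
    · rw [pair_comm]
      exact hT (mem_Fr (hmem hb) (hmem ha) h1)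

end Pool.Agent.LTF
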