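import Pool.Agent.Helper22.LTF.Geo

/-!
# The left arm: the edges with midpoint left of the centre
-/

set_option autoImplicit false

namespace Pool.Agent.LTF

open Finset Pool.Agent.LT

variable {n w : ℕ} {σ : ℤ} {E E' : ℤ × ℤ → ℤ × ℤ → Prop}

lemma mem_grid' {p : ℤ × ℤ} : p ∈ grid (2 * n + w) ↔
    (0 ≤ p.1 ∧ 0 ≤ p.2) ∧ p.1 ≤ 2 * (n : ℤ) + w ∧ p.2 ≤ 2 * (n : ℤ) + w := by
  rw [mem_grid]; push_cast; rfl

/-- an edge which crosses a horizontal line in the centre rows crosses it right of the left arm -/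
lemma Rel.cross_row (hE : Rel n w σ E) {p q : ℤ × ℤ} (h : E p q) {y : ℤ} (h1 : p.2 < y)
    (h2 : y < q.2) (_hy : (n : ℤ) ≤ y) (_hy' : y ≤ (n : ℤ) + w) :
    (n : ℤ) * (q.2 - p.2) < p.1 * (q.2 - p.2) + (q.1 - p.1) * (y - p.2) := by
  by_contra hX
  push Not at hX
  set Δ := q.2 - p.2 with hΔ
  set X := p.1 * Δ + (q.1 - p.1) * (y - p.2) with hXdef
  have hΔ0 : 0 < Δ := by omega
  have hp := mem_grid'.1 (hE.mem _ _ h)
  have hq := mem_grid'.1 (hE.mem _ _ (hE.symm _ _ h))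
  have hX0 : 0 ≤ X := by
    have e : X = p.1 * (q.2 - y) + q.1 * (y - p.2) := by rw [hXdef, hΔ]; ring
    rw [e]
    exact add_nonneg (mul_nonneg hp.1.1 (by omega)) (mul_nonneg hq.1.1 (by omega))
  set k := X / Δ with hk
  have hdiv := Int.mul_ediv_add_emod X Δ
  rw [← hk] at hdiv
  have hr0 := Int.emod_nonneg X hΔ0.ne'
  have hr1 := Int.emod_lt_of_pos X hΔ0
  set r := X % Δ with hr
  have hk0 : 0 ≤ k := Int.ediv_nonneg hX0 hΔ0.le
  rcases eq_or_lt_of_le hr0 with hr' | hr'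
  · -- a lattice point
    obtain ⟨v, hv⟩ := hE.prim _ _ h
    have e1 : (q.1 - p.1) * (y - p.2) = Δ * (k - p.1) := by
      rw [← hr'] at hdiv
      linarith
    have e2 : y - p.2 = Δ * ((k - p.1) * v.2 - (y - p.2) * v.1) := by
      have : y - p.2 = (y - p.2) * ((q.1 - p.1) * v.2 - Δ * v.1) := by rw [hΔ, hv, mul_one]
      linear_combination this + v.2 * e1
    have h3 : Δ ∣ y - p.2 := ⟨_, e2⟩
    have h4 := Int.le_of_dvd (by omega) h3
    omega
  · have hkn : k < n := by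
      by_contra hkn
      push Not at hkn
      have : (n : ℤ) * Δ ≤ k * Δ := mul_le_mul_of_nonneg_right hkn hΔ0.le
      have : Δ * k = k * Δ := mul_comm _ _
      omega
    have hf : E (k, y) (k + 1, y) := hE.frozen _ _
      (mem_grid'.2 ⟨⟨hk0, by simp only; omega⟩, by simp only; omega, by simp only; omega⟩)
      (mem_grid'.2 ⟨⟨by simp only; omega, by simp only; omega⟩, by simp only; omega,
        by simp only; omega⟩)
      (Or.inl ⟨rfl, rfl, Or.inl hkn⟩)
    refine hE.nc _ _ _ _ h hf ⟨?_, ?_⟩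
    · have e1 : D p q (k, y) = r := by
        unfold D
        simp only
        rw [← hΔ]
        linear_combination -hdiv
      have e2 : D p q (k + 1, y) = r - Δ := by
        unfold D
        simp only
        rw [← hΔ]
        linear_combination -hdiv
      rw [e1, e2]
      exact mul_neg_of_pos_of_neg hr' (by omega)
    · have e1 : D (k, y) (k + 1, y) p = p.2 - y := by unfold D; simp only; ring
      have e2 : D (k, y) (k + 1, y) q = q.2 - y := by unfold D; simp only; ring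
      rw [e1, e2]
      exact mul_neg_of_neg_of_pos (by omega) (by omega)

/-- edges with midpoint in the left arm and between two rows join the two rows -/
lemma Rel.rows (hE : Rel n w σ E) {p q : ℤ × ℤ} (h : E p q) (hlt : p.2 < q.2) {j : ℤ}
    (hs : p.1 + q.1 ≤ 2 * n) (hj : p.2 + q.2 = 2 * j + 1) (hj1 : (n : ℤ) ≤ j)
    (hj2 : j < (n : ℤ) + w) : p.2 = j ∧ q.2 = j + 1 := by
  by_contra hne
  have h1 : p.2 < j := by omega
  have h2 := hE.cross_row h (y := j) h1 (by omega) hj1 (by omega)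
  have h3 := hE.cross_row h (y := j + 1) (by omega) (by omega) (by omega) (by omega)
  have e : (p.1 * (q.2 - p.2) + (q.1 - p.1) * (j - p.2))
      + (p.1 * (q.2 - p.2) + (q.1 - p.1) * (j + 1 - p.2)) = (p.1 + q.1) * (q.2 - p.2) := by
    linear_combination (-(q.1 - p.1)) * hj
  have h4 : (p.1 + q.1) * (q.2 - p.2) ≤ 2 * n * (q.2 - p.2) :=
    mul_le_mul_of_nonneg_right hs (by omega)
  linarith

/-- the line with the parity of `σ` of the strip between `j` and `j + 1` (called even line) -/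
def ev (σ j : ℤ) : ℤ := if (j + σ) % 2 = 0 then j else j + 1

/-- the other line of the strip between `j` and `j + 1` (called odd line) -/
def od (σ j : ℤ) : ℤ := if (j + σ) % 2 = 0 then j + 1 else j

lemma ev_od (σ j : ℤ) : (ev σ j = j ∧ od σ j = j + 1 ∧ (j + σ) % 2 = 0) ∨
    (ev σ j = j + 1 ∧ od σ j = j ∧ (j + σ) % 2 = 1) := by
  unfold ev od
  split_ifs with h
  · exact Or.inl ⟨rfl, rfl, h⟩
  · exact Or.inr ⟨rfl, rfl, by omega⟩

/-- the edge of the strip `j` from `u` on the even line to `v` on the odd line -/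
def SE (σ : ℤ) (E : ℤ × ℤ → ℤ × ℤ → Prop) (j u v : ℤ) : Prop := E (u, ev σ j) (v, od σ j)

lemma Rel.SE_mem (hE : Rel n w σ E) {j u v : ℤ} (h : SE σ E j u v) :
    0 ≤ u ∧ 0 ≤ v ∧ u ≤ 2 * (n : ℤ) + w ∧ v ≤ 2 * (n : ℤ) + w := by
  have h1 := mem_grid'.1 (hE.mem _ _ h)
  have h2 := mem_grid'.1 (hE.mem _ _ (hE.symm _ _ h))
  simp only at h1 h2
  omega

lemma Rel.SE_comp (hE : Rel n w σ E) {j u v u' v' : ℤ} (h : SE σ E j u v) (h' : SE σ E j u' v') :
    (u ≤ u' ∧ v ≤ v') ∨ (u' ≤ u ∧ v' ≤ v) := by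
  by_contra hne
  have hy : ev σ j ≠ od σ j := by
    rcases ev_od σ j with ⟨h1, h2, -⟩ | ⟨h1, h2, -⟩ <;> omega
  have hcases : (u < u' ∧ v' < v) ∨ (u' < u ∧ v < v') := by omega
  rcases hcases with ⟨h1, h2⟩ | ⟨h1, h2⟩
  · exact hE.nc _ _ _ _ h h' (cross_strip hy h1 h2)
  · exact hE.nc _ _ _ _ h' h (cross_strip hy h1 h2)

lemma Rel.SE_fan (hE : Rel n w σ E) {j : ℤ} (hj1 : (n : ℤ) ≤ j) (hj2 : j < (n : ℤ) + w) {v : ℤ}
    (h0 : 0 ≤ v) (h1 : v ≤ n) : SE σ E j 0 v := by
  have hj := ev_od σ j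
  refine hE.frozen _ _ ?_ ?_ (Or.inr (Or.inr (Or.inr (Or.inl ?_))))
  · rw [mem_grid']; simp only; omega
  · rw [mem_grid']; simp only; omega
  · refine ⟨?_, ?_, ?_, ?_, ?_, ?_, Or.inl ⟨rfl, h1⟩⟩ <;> simp only <;> omega

lemma Rel.SE_exists (hE : Rel n w σ E) {j : ℤ} (hj1 : (n : ℤ) ≤ j) (hj2 : j < (n : ℤ) + w) {s : ℤ}
    (h0 : 0 ≤ s) (h1 : s ≤ 2 * n) : ∃ v, SE σ E j (s - v) v := by
  obtain ⟨a, b, hab, ha, hb⟩ := hE.surj (s, 2 * j + 1) (by
    rw [mem_HH]; push_cast; omega)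
  simp only at ha hb
  have key : ∀ a b : ℤ × ℤ, E a b → a.1 + b.1 = s → a.2 + b.2 = 2 * j + 1 → a.2 < b.2 →
      ∃ v, SE σ E j (s - v) v := by
    intro a b hab ha hb hlt
    obtain ⟨h2, h3⟩ := hE.rows hab hlt (j := j) (by omega) hb hj1 hj2
    rcases ev_od σ j with ⟨g1, g2, -⟩ | ⟨g1, g2, -⟩
    · refine ⟨b.1, ?_⟩
      unfold SE
      have e1 : (s - b.1, ev σ j) = a := Prod.ext (show s - b.1 = a.1 by omega) (show ev σ j = a.2 by omega)
      have e2 : (b.1, od σ j) = b := Prod.ext rfl (show od σ j = b.2 by omega)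
      rw [e1, e2]
      exact hab
    · refine ⟨a.1, ?_⟩
      unfold SE
      have e1 : (s - a.1, ev σ j) = b := Prod.ext (show s - a.1 = b.1 by omega) (show ev σ j = b.2 by omega)
      have e2 : (a.1, od σ j) = a := Prod.ext rfl (show od σ j = a.2 by omega)
      rw [e1, e2]
      exact hE.symm _ _ hab
  rcases lt_trichotomy a.2 b.2 with h | h | h
  · exact key a b hab ha hb h
  · omega
  · exact key b a (hE.symm _ _ hab) (by omega) (by omega) h

lemma Rel.SE_ge (hE : Rel n w σ E) {j : ℤ} (hj1 : (n : ℤ) ≤ j) (hj2 : j < (n : ℤ) + w) {u v : ℤ}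
    (h : SE σ E j u v) (hs : (n : ℤ) ≤ u + v) : (n : ℤ) ≤ v := by
  have h1 := hE.SE_comp h (hE.SE_fan hj1 hj2 (v := n) (by omega) le_rfl)
  have h2 := hE.SE_mem h
  omega

/-- an edge which spans the centre from left to right in one strip -/
def Sp (n w : ℕ) (E : ℤ × ℤ → ℤ × ℤ → Prop) : Prop :=
  ∃ a b : ℤ × ℤ, E a b ∧ (b.2 = a.2 + 1 ∨ b.2 = a.2 - 1) ∧ (n : ℤ) ≤ a.2 ∧ (n : ℤ) ≤ b.2 ∧
    a.2 ≤ (n : ℤ) + w ∧ b.2 ≤ (n : ℤ) + w ∧ a.1 < n ∧ (n : ℤ) + w < b.1

lemma Rel.SE_le (_hE : Rel n w σ E) (hsp : ¬ Sp n w E) {j : ℤ} (hj1 : (n : ℤ) ≤ j)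
    (hj2 : j < (n : ℤ) + w) {u v : ℤ} (h : SE σ E j u v) (hs : u + v ≤ 2 * n) :
    v ≤ (n : ℤ) + w := by
  by_contra hv
  apply hsp
  have hj := ev_od σ j
  refine ⟨(u, ev σ j), (v, od σ j), h, ?_, ?_, ?_, ?_, ?_, ?_, ?_⟩ <;> simp only <;> omega

/-- the sequence of the strip `j` makes a step on the odd line at the sum `s` -/
def PE (σ : ℤ) (E : ℤ × ℤ → ℤ × ℤ → Prop) (j s : ℤ) : Prop :=
  ∃ v, SE σ E j (s - v) v ∧ SE σ E j (s - v) (v - 1)

/-- the steps of a strip determine its edges in the left arm -/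
lemma Rel.determ (hE : Rel n w σ E) (hE' : Rel n w σ E') {j : ℤ} (hj1 : (n : ℤ) ≤ j)
    (hj2 : j < (n : ℤ) + w) (hP : ∀ s : ℤ, (n : ℤ) < s → s ≤ 2 * n → (PE σ E j s ↔ PE σ E' j s))
    (i : ℕ) (hi : i ≤ n) : ∀ v, SE σ E j (n + i - v) v → SE σ E' j (n + i - v) v := by
  induction i with
  | zero =>
    intro v h
    have h1 := hE.SE_ge hj1 hj2 h (by omega)
    have h2 := hE.SE_mem h
    have h3 : v = n := by push_cast at h2; omega
    subst h3
    have := hE'.SE_fan hj1 hj2 (v := n) (by omega) le_rfl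
    push_cast
    rw [show (n : ℤ) + 0 - n = 0 by ring]
    exact this
  | succ i ih =>
    intro v h
    obtain ⟨v0, hv0⟩ := hE.SE_exists hj1 hj2 (s := n + i) (by omega) (by omega)
    have hv0' := ih (by omega) v0 hv0
    obtain ⟨v', hv'⟩ := hE'.SE_exists hj1 hj2 (s := n + (i + 1 : ℕ)) (by omega) (by omega)
    have c1 := hE.SE_comp h hv0
    have c2 := hE'.SE_comp hv' hv0'
    push_cast at c1 c2 h hv' ⊢
    have hP' := hP (n + (i + 1)) (by omega) (by omega)
    have k1 : PE σ E j (n + (i + 1)) ↔ v = v0 + 1 := by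
      constructor
      · rintro ⟨x, hx1, hx2⟩
        have c3 := hE.SE_comp hx1 h
        have c4 := hE.SE_comp hx2 hv0
        omega
      · intro hv
        refine ⟨v, h, ?_⟩
        have e1 : (n : ℤ) + (i + 1) - v = n + i - v0 := by omega
        have e2 : v - 1 = v0 := by omega
        rw [e1, e2]
        exact hv0
    have k2 : PE σ E' j (n + (i + 1)) ↔ v' = v0 + 1 := by
      constructor
      · rintro ⟨x, hx1, hx2⟩
        have c3 := hE'.SE_comp hx1 hv'
        have c4 := hE'.SE_comp hx2 hv0'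
        omega
      · intro hv
        refine ⟨v', hv', ?_⟩
        have e1 : (n : ℤ) + (i + 1) - v' = n + i - v0 := by omega
        have e2 : v' - 1 = v0 := by omega
        rw [e1, e2]
        exact hv0'
    have h5 : v = v' := by
      by_cases hvv : v = v0 + 1
      · rw [hvv, k2.1 (hP'.1 (k1.2 hvv))]
      · have : ¬ v' = v0 + 1 := fun h => hvv (k1.1 (hP'.2 (k2.2 h)))
        omega
    rw [h5]
    exact hv'

open Classical in
/-- a strip makes at most `w` steps on the odd line in the left arm -/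
lemma Rel.card_steps (hE : Rel n w σ E) (hsp : ¬ Sp n w E) {j : ℤ} (hj1 : (n : ℤ) ≤ j)
    (hj2 : j < (n : ℤ) + w) :
    ((univ : Finset (Fin n)).filter fun i => PE σ E j ((n : ℤ) + 1 + (i.val : ℤ))).card ≤ w := by
  have hex : ∀ i : Fin n, ∃ v : ℤ, PE σ E j ((n : ℤ) + 1 + (i.val : ℤ)) →
      SE σ E j ((n : ℤ) + 1 + (i.val : ℤ) - v) v ∧
        SE σ E j ((n : ℤ) + 1 + (i.val : ℤ) - v) (v - 1) := by
    intro i
    by_cases h : PE σ E j ((n : ℤ) + 1 + (i.val : ℤ))
    · obtain ⟨v, hv⟩ := h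
      exact ⟨v, fun _ => hv⟩
    · exact ⟨0, fun h' => absurd h' h⟩
  choose g hg using hex
  have hbd : ∀ i : Fin n, PE σ E j ((n : ℤ) + 1 + (i.val : ℤ)) → (n : ℤ) + 1 ≤ g i ∧ g i ≤ (n : ℤ) + w := by
    intro i hi
    obtain ⟨h1, h2⟩ := hg i hi
    have h3 := hE.SE_ge hj1 hj2 h2 (by omega)
    have h4 := hE.SE_le hsp hj1 hj2 h1 (by have := i.isLt; omega)
    omega
  calc ((univ : Finset (Fin n)).filter fun i => PE σ E j ((n : ℤ) + 1 + (i.val : ℤ))).card
      ≤ (range w).card := by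
        refine card_le_card_of_injOn (fun i => (g i - (n + 1)).toNat) ?_ ?_
        · intro i hi
          rw [mem_coe, mem_filter] at hi
          have := hbd i hi.2
          simp only [coe_range, Set.mem_Iio]
          omega
        · intro i hi i' hi' heq
          rw [mem_coe, mem_filter] at hi hi'
          have b1 := hbd i hi.2
          have b2 := hbd i' hi'.2
          have e : g i = g i' := by simp only at heq; omega
          obtain ⟨h1, h2⟩ := hg i hi.2
          obtain ⟨h3, h4⟩ := hg i' hi'.2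
          have c1 := hE.SE_comp h1 h4
          have c2 := hE.SE_comp h3 h2
          have : i.val = i'.val := by omega
          exact Fin.ext this
    _ = w := card_range w

/-- the edges with midpoint in the left part are determined by the steps -/
lemma Rel.agree (hE : Rel n w σ E) (hE' : Rel n w σ E')
    (hP : ∀ j s : ℤ, (n : ℤ) ≤ j → j < (n : ℤ) + w → (n : ℤ) < s → s ≤ 2 * n →
      (PE σ E j s ↔ PE σ E' j s)) {a b : ℤ × ℤ} (h : E a b) (hs : a.1 + b.1 ≤ 2 * n) : E' a b := by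
  have ha := mem_grid'.1 (hE.mem _ _ h)
  have hb := mem_grid'.1 (hE.mem _ _ (hE.symm _ _ h))
  -- reduction to a common edge with the same midpoint
  have red : ∀ c d : ℤ × ℤ, E c d → E' c d → c.1 + d.1 = a.1 + b.1 → c.2 + d.2 = a.2 + b.2 →
      E' a b := by
    intro c d h1 h2 h3 h4
    rcases hE.uniq _ _ _ _ h h1 h3.symm h4.symm with ⟨rfl, rfl⟩ | ⟨rfl, rfl⟩
    · exact h2
    · exact hE'.symm _ _ h2
  have redF : ∀ c d : ℤ × ℤ, c ∈ grid (2 * n + w) → d ∈ grid (2 * n + w) → Fz n w σ c d →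
      c.1 + d.1 = a.1 + b.1 → c.2 + d.2 = a.2 + b.2 → E' a b := fun c d hc hd hF =>
    red c d (hE.frozen _ _ hc hd hF) (hE'.frozen _ _ hc hd hF)
  -- the sum is not even
  have hodd : ¬ ((a.1 + b.1) % 2 = 0 ∧ (a.2 + b.2) % 2 = 0) := by
    rintro ⟨h1, h2⟩
    obtain ⟨v, hv⟩ := hE.prim _ _ h
    obtain ⟨x, hx⟩ : ∃ x : ℤ, b.1 - a.1 = 2 * x := ⟨(b.1 - a.1) / 2, by omega⟩
    obtain ⟨y, hy⟩ : ∃ y : ℤ, b.2 - a.2 = 2 * y := ⟨(b.2 - a.2) / 2, by omega⟩
    rw [hx, hy] at hv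
    have : 2 * (x * v.2 - y * v.1) = 1 := by linarith
    omega
  rcases Int.emod_two_eq_zero_or_one (a.2 + b.2) with h2 | h2
  · -- horizontal
    refine redF ((a.1 + b.1) / 2, (a.2 + b.2) / 2) ((a.1 + b.1) / 2 + 1, (a.2 + b.2) / 2)
      ?_ ?_ (Or.inl ⟨rfl, rfl, Or.inl ?_⟩) ?_ ?_
    · rw [mem_grid']; simp only; omega
    · rw [mem_grid']; simp only; omega
    · simp only; omega
    · simp only; omega
    · simp only; omega
  · by_cases hj : (n : ℤ) ≤ (a.2 + b.2) / 2 ∧ (a.2 + b.2) / 2 < (n : ℤ) + w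
    · -- a strip
      obtain ⟨hj1, hj2⟩ := hj
      set j := (a.2 + b.2) / 2 with hjdef
      have hjj := ev_od σ j
      obtain ⟨v, hv⟩ := hE.SE_exists hj1 hj2 (s := a.1 + b.1) (by omega) hs
      have hv' : SE σ E' j (a.1 + b.1 - v) v := by
        by_cases hsn : a.1 + b.1 ≤ n
        · have h3 := hE.SE_fan hj1 hj2 (v := a.1 + b.1) (by omega) hsn
          have h4 := hE'.SE_fan hj1 hj2 (v := a.1 + b.1) (by omega) hsn
          have c := hE.SE_comp hv h3
          have : v = a.1 + b.1 := by omega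
          rw [this, sub_self]
          exact h4
        · obtain ⟨i, hi⟩ : ∃ i : ℕ, a.1 + b.1 = n + i := ⟨(a.1 + b.1 - n).toNat, by omega⟩
          rw [hi] at hv ⊢
          exact hE.determ hE' hj1 hj2 (fun s => hP j s hj1 hj2) i (by omega) v hv
      refine red _ _ hv hv' ?_ ?_
      · simp only; omega
      · simp only; omega
    · rcases Int.emod_two_eq_zero_or_one (a.1 + b.1) with h1 | h1
      · -- vertical
        refine redF ((a.1 + b.1) / 2, (a.2 + b.2) / 2) ((a.1 + b.1) / 2, (a.2 + b.2) / 2 + 1)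
          ?_ ?_ (Or.inr (Or.inl ⟨rfl, rfl, ?_⟩)) ?_ ?_
        · rw [mem_grid']; simp only; omega
        · rw [mem_grid']; simp only; omega
        · simp only; omega
        · simp only; omega
        · simp only; omega
      · -- diagonal
        refine redF ((a.1 + b.1) / 2, (a.2 + b.2) / 2) ((a.1 + b.1) / 2 + 1, (a.2 + b.2) / 2 + 1)
          ?_ ?_ (Or.inr (Or.inr (Or.inl ⟨rfl, rfl, Or.inl ?_, ?_⟩))) ?_ ?_
        · rw [mem_grid']; simp only; omega
        · rw [mem_grid']; simp only; omega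
        · simp only; omega
        · simp only; omega
        · simp only; omega
        · simp only; omega

end Pool.Agent.LTF
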