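import Pool.Agent.Helper22.LTF.Left

/-!
# Explicit triangulations with spanning edges
-/

set_option autoImplicit false

namespace Pool.Agent.LTF

open Finset Pool.Agent.LT

variable {n w : ℕ}

/-- the edges of a strip: two fans, and between them a path with the choices `b` -/
def Row (n w : ℕ) (b : ℤ → Prop) (u v : ℤ) : Prop :=
  (u = 0 ∧ 0 ≤ v ∧ v ≤ n) ∨ (0 ≤ u ∧ u ≤ (n : ℤ) + w ∧ v = n + u) ∨
  (1 ≤ u ∧ u ≤ (n : ℤ) + w ∧ v = n + u - 1 ∧ b (u - 1)) ∨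
  (0 ≤ u ∧ u < (n : ℤ) + w ∧ v = n + u + 1 ∧ ¬ b u) ∨
  (v = 2 * (n : ℤ) + w ∧ (n : ℤ) + w ≤ u ∧ u ≤ 2 * (n : ℤ) + w)

lemma Row_comp {b : ℤ → Prop} {u v u' v' : ℤ} (h : Row n w b u v) (h' : Row n w b u' v') :
    (u ≤ u' ∧ v ≤ v') ∨ (u' ≤ u ∧ v' ≤ v) := by
  rcases h with ⟨h1, h2, h3⟩ | ⟨h1, h2, h3⟩ | ⟨h1, h2, h3, h4⟩ | ⟨h1, h2, h3, h4⟩ | ⟨h1, h2, h3⟩ <;>
  rcases h' with ⟨g1, g2, g3⟩ | ⟨g1, g2, g3⟩ | ⟨g1, g2, g3, g4⟩ | ⟨g1, g2, g3, g4⟩ | ⟨g1, g2, g3⟩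
  all_goals first
    | omega
    | (by_cases hc : u - 1 = u'
       · exact absurd (hc ▸ h4) g4
       · omega)
    | (by_cases hc : u' - 1 = u
       · exact absurd (hc ▸ g4) h4
       · omega)

lemma Row_exists (b : ℤ → Prop) {s : ℤ} (h0 : 0 ≤ s) (h1 : s ≤ 2 * (2 * (n : ℤ) + w)) :
    ∃ u v, Row n w b u v ∧ u + v = s := by
  by_cases h2 : s ≤ n
  · exact ⟨0, s, Or.inl ⟨rfl, h0, h2⟩, by omega⟩
  by_cases h3 : 3 * (n : ℤ) + 2 * w ≤ s
  · exact ⟨s - (2 * n + w), 2 * n + w, Or.inr (Or.inr (Or.inr (Or.inr ⟨rfl, by omega, by omega⟩))),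
      by omega⟩
  rcases Int.emod_two_eq_zero_or_one (s - n) with h4 | h4
  · exact ⟨(s - n) / 2, n + (s - n) / 2, Or.inr (Or.inl ⟨by omega, by omega, rfl⟩), by omega⟩
  · by_cases hb : b ((s - n) / 2)
    · refine ⟨(s - n) / 2 + 1, n + (s - n) / 2, Or.inr (Or.inr (Or.inl ⟨by omega, by omega,
        by omega, ?_⟩)), by omega⟩
      rw [add_sub_cancel_right]
      exact hb
    · exact ⟨(s - n) / 2, n + (s - n) / 2 + 1, Or.inr (Or.inr (Or.inr (Or.inl ⟨by omega, by omega,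
        rfl, hb⟩))), by omega⟩

/-- the edges of a strip of the lower or upper arm: two fans -/
def Col (n w : ℕ) (c d : ℤ) : Prop :=
  (c = 0 ∧ 0 ≤ d ∧ d ≤ n) ∨ (d = n ∧ 0 ≤ c ∧ c ≤ n) ∨
  (c = (n : ℤ) + w ∧ (n : ℤ) + w ≤ d ∧ d ≤ 2 * (n : ℤ) + w) ∨
  (d = 2 * (n : ℤ) + w ∧ (n : ℤ) + w ≤ c ∧ c ≤ 2 * (n : ℤ) + w)

lemma Col_comp {c d c' d' : ℤ} (h : Col n w c d) (h' : Col n w c' d') :
    (c ≤ c' ∧ d ≤ d') ∨ (c' ≤ c ∧ d' ≤ d) := by
  unfold Col at h h'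
  omega

lemma Col_loc {c d : ℤ} (h : Col n w c d) : (c ≤ n ∧ d ≤ n) ∨ ((n : ℤ) + w ≤ c ∧ (n : ℤ) + w ≤ d) := by
  unfold Col at h
  omega

/-- short edges: unit edges and diagonals -/
def Kt (n w : ℕ) (p q : ℤ × ℤ) : Prop :=
  (q.1 = p.1 + 1 ∧ q.2 = p.2 ∧
    (p.1 < n ∨ (n : ℤ) + w ≤ p.1 ∨ ((n : ℤ) ≤ p.2 ∧ p.2 ≤ (n : ℤ) + w))) ∨
  (q.1 = p.1 ∧ q.2 = p.2 + 1 ∧ (p.2 < n ∨ (n : ℤ) + w ≤ p.2)) ∨
  (q.1 = p.1 + 1 ∧ q.2 = p.2 + 1 ∧ (p.1 < n ∨ (n : ℤ) + w ≤ p.1) ∧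
    (p.2 < n ∨ (n : ℤ) + w ≤ p.2))

/-- edges of the strips of the centre rows -/
def Ht (n w : ℕ) (b : ℤ → ℤ → Prop) (p q : ℤ × ℤ) : Prop :=
  ∃ j : ℤ, (n : ℤ) ≤ j ∧ j < (n : ℤ) + w ∧ p.2 = ev 0 j ∧ q.2 = od 0 j ∧ Row n w (b j) p.1 q.1

/-- edges of the strips of the lower and upper arms -/
def Wt (n w : ℕ) (p q : ℤ × ℤ) : Prop :=
  ∃ j : ℤ, (n : ℤ) ≤ j ∧ j < (n : ℤ) + w ∧ p.1 = ev 0 j ∧ q.1 = od 0 j ∧ Col n w p.2 q.2

/-- all edges -/
def Ts (n w : ℕ) (b : ℤ → ℤ → Prop) (p q : ℤ × ℤ) : Prop :=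
  Kt n w p q ∨ Ht n w b p q ∨ Wt n w p q

lemma Kt_row {p q : ℤ × ℤ} (h : Kt n w p q) {j : ℤ} (hj1 : (n : ℤ) ≤ j) (hj2 : j < (n : ℤ) + w) :
    (p.2 ≤ j ∧ q.2 ≤ j) ∨ (j + 1 ≤ p.2 ∧ j + 1 ≤ q.2) := by
  unfold Kt at h
  omega

lemma Kt_col {p q : ℤ × ℤ} (h : Kt n w p q) {j : ℤ} (hj1 : (n : ℤ) ≤ j) (hj2 : j < (n : ℤ) + w) :
    ((p.1 ≤ j ∧ q.1 ≤ j) ∨ (j + 1 ≤ p.1 ∧ j + 1 ≤ q.1)) ∨
      (q.2 = p.2 ∧ (n : ℤ) ≤ p.2 ∧ p.2 ≤ (n : ℤ) + w) := by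
  unfold Kt at h
  omega

lemma ev_od_mem {j : ℤ} : (j ≤ ev 0 j ∧ ev 0 j ≤ j + 1) ∧ (j ≤ od 0 j ∧ od 0 j ≤ j + 1) := by
  rcases ev_od 0 j with ⟨h1, h2, -⟩ | ⟨h1, h2, -⟩ <;> omega

lemma nc_KK {p q p' q' : ℤ × ℤ} (h : Kt n w p q) (h' : Kt n w p' q') : ¬ Cross p q p' q' := by
  apply nc_det
  have d : ∀ p q : ℤ × ℤ, Kt n w p q → (q.1 - p.1 = 1 ∨ q.1 - p.1 = 0) ∧
      (q.2 - p.2 = 1 ∨ q.2 - p.2 = 0) := by
    intro p q h
    unfold Kt at h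
    omega
  obtain ⟨h1, h2⟩ := d p q h
  obtain ⟨h3, h4⟩ := d p' q' h'
  rcases h1 with h1 | h1 <;> rcases h2 with h2 | h2 <;> rcases h3 with h3 | h3 <;>
    rcases h4 with h4 | h4 <;> rw [h1, h2, h3, h4] <;> norm_num

lemma nc_KH {b : ℤ → ℤ → Prop} {p q p' q' : ℤ × ℤ} (h : Kt n w p q) (h' : Ht n w b p' q') :
    ¬ Cross p q p' q' := by
  obtain ⟨j, hj1, hj2, e1, e2, -⟩ := h'
  have hm := ev_od_mem (j := j)
  rcases Kt_row h hj1 hj2 with h1 | h1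
  · exact nc_sepy j h1.1 h1.2 (by omega) (by omega)
  · exact fun hc => nc_sepy (j + 1) (a := p') (b := q') (c := p) (d := q) (by omega) (by omega)
      h1.1 h1.2 hc.symm

lemma nc_KW {p q p' q' : ℤ × ℤ} (h : Kt n w p q) (h' : Wt n w p' q') : ¬ Cross p q p' q' := by
  obtain ⟨j, hj1, hj2, e1, e2, h3⟩ := h'
  have hm := ev_od_mem (j := j)
  rcases Kt_col h hj1 hj2 with (h1 | h1) | h1
  · exact nc_sepx j h1.1 h1.2 (by omega) (by omega)
  · exact fun hc => nc_sepx (j + 1) (a := p') (b := q') (c := p) (d := q) (by omega) (by omega)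
      h1.1 h1.2 hc.symm
  · rcases Col_loc h3 with h4 | h4
    · exact fun hc => nc_sepy n (a := p') (b := q') (c := p) (d := q) (by omega) (by omega)
        (by omega) (by omega) hc.symm
    · exact nc_sepy ((n : ℤ) + w) (by omega) (by omega) (by omega) (by omega)

lemma nc_HH {b : ℤ → ℤ → Prop} {p q p' q' : ℤ × ℤ} (h : Ht n w b p q) (h' : Ht n w b p' q') :
    ¬ Cross p q p' q' := by
  obtain ⟨j, hj1, hj2, e1, e2, h3⟩ := h
  obtain ⟨j', hj1', hj2', e1', e2', h3'⟩ := h'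
  have hm := ev_od_mem (j := j)
  have hm' := ev_od_mem (j := j')
  rcases lt_trichotomy j j' with hlt | rfl | hlt
  · exact nc_sepy (j + 1) (by omega) (by omega) (by omega) (by omega)
  · have hc := Row_comp h3 h3'
    have := nc_chain (y := ev 0 j) (y' := od 0 j) hc
    rwa [show (p.1, ev 0 j) = p from Prod.ext rfl e1.symm,
      show (q.1, od 0 j) = q from Prod.ext rfl e2.symm,
      show (p'.1, ev 0 j) = p' from Prod.ext rfl e1'.symm,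
      show (q'.1, od 0 j) = q' from Prod.ext rfl e2'.symm] at this
  · exact fun hc => nc_sepy (j' + 1) (a := p') (b := q') (c := p) (d := q) (by omega) (by omega)
      (by omega) (by omega) hc.symm

lemma nc_HW {b : ℤ → ℤ → Prop} {p q p' q' : ℤ × ℤ} (h : Ht n w b p q) (h' : Wt n w p' q') :
    ¬ Cross p q p' q' := by
  obtain ⟨j, hj1, hj2, e1, e2, h3⟩ := h
  obtain ⟨j', hj1', hj2', e1', e2', h3'⟩ := h'
  have hm := ev_od_mem (j := j)
  rcases Col_loc h3' with h4 | h4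
  · exact fun hc => nc_sepy n (a := p') (b := q') (c := p) (d := q) (by omega) (by omega)
      (by omega) (by omega) hc.symm
  · exact nc_sepy ((n : ℤ) + w) (by omega) (by omega) (by omega) (by omega)

lemma nc_WW {p q p' q' : ℤ × ℤ} (h : Wt n w p q) (h' : Wt n w p' q') : ¬ Cross p q p' q' := by
  obtain ⟨j, hj1, hj2, e1, e2, h3⟩ := h
  obtain ⟨j', hj1', hj2', e1', e2', h3'⟩ := h'
  have hm := ev_od_mem (j := j)
  have hm' := ev_od_mem (j := j')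
  rcases lt_trichotomy j j' with hlt | rfl | hlt
  · exact nc_sepx (j + 1) (by omega) (by omega) (by omega) (by omega)
  · have hc := Col_comp h3 h3'
    have := nc_chain (y := ev 0 j) (y' := od 0 j) hc
    rw [← cross_sw] at this
    rwa [show ((p.2, ev 0 j).2, (p.2, ev 0 j).1) = p from Prod.ext e1.symm rfl,
      show ((q.2, od 0 j).2, (q.2, od 0 j).1) = q from Prod.ext e2.symm rfl,
      show ((p'.2, ev 0 j).2, (p'.2, ev 0 j).1) = p' from Prod.ext e1'.symm rfl,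
      show ((q'.2, od 0 j).2, (q'.2, od 0 j).1) = q' from Prod.ext e2'.symm rfl] at this
  · exact fun hc => nc_sepx (j' + 1) (a := p') (b := q') (c := p) (d := q) (by omega) (by omega)
      (by omega) (by omega) hc.symm

theorem nc_Ts {b : ℤ → ℤ → Prop} {p q p' q' : ℤ × ℤ} (h : Ts n w b p q) (h' : Ts n w b p' q') :
    ¬ Cross p q p' q' := by
  rcases h with h | h | h <;> rcases h' with h' | h' | h'
  · exact nc_KK h h'
  · exact nc_KH h h'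
  · exact nc_KW h h'
  · exact fun hc => nc_KH h' h hc.symm
  · exact nc_HH h h'
  · exact nc_HW h h'
  · exact fun hc => nc_KW h' h hc.symm
  · exact fun hc => nc_HW h' h hc.symm
  · exact nc_WW h h'

lemma prim_Ts {b : ℤ → ℤ → Prop} {p q : ℤ × ℤ} (h : Ts n w b p q) :
    ∃ v : ℤ × ℤ, (q.1 - p.1) * v.2 - (q.2 - p.2) * v.1 = 1 := by
  have hx : ∀ d : ℤ, d = 1 ∨ d = -1 → q.1 - p.1 = d → ∃ v : ℤ × ℤ,
      (q.1 - p.1) * v.2 - (q.2 - p.2) * v.1 = 1 := by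
    rintro d (rfl | rfl) h
    · exact ⟨(0, 1), by rw [h]; ring⟩
    · exact ⟨(0, -1), by rw [h]; ring⟩
  have hy : ∀ d : ℤ, d = 1 ∨ d = -1 → q.2 - p.2 = d → ∃ v : ℤ × ℤ,
      (q.1 - p.1) * v.2 - (q.2 - p.2) * v.1 = 1 := by
    rintro d (rfl | rfl) h
    · exact ⟨(-1, 0), by rw [h]; ring⟩
    · exact ⟨(1, 0), by rw [h]; ring⟩
  rcases h with h | h | h
  · rcases h with ⟨h1, h2, -⟩ | ⟨h1, h2, -⟩ | ⟨h1, h2, -⟩
    · exact hx 1 (Or.inl rfl) (by omega)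
    · exact hy 1 (Or.inl rfl) (by omega)
    · exact hx 1 (Or.inl rfl) (by omega)
  · obtain ⟨j, -, -, e1, e2, -⟩ := h
    refine hy (q.2 - p.2) ?_ rfl
    rcases ev_od 0 j with ⟨h1, h2, -⟩ | ⟨h1, h2, -⟩ <;> omega
  · obtain ⟨j, -, -, e1, e2, -⟩ := h
    refine hx (q.1 - p.1) ?_ rfl
    rcases ev_od 0 j with ⟨h1, h2, -⟩ | ⟨h1, h2, -⟩ <;> omega

/-- every midpoint is covered -/
lemma cover_Ts (b : ℤ → ℤ → Prop) {M : ℤ × ℤ} (hM : M ∈ HH (2 * n + w)) :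
    ∃ p q : ℤ × ℤ, p ∈ grid (2 * n + w) ∧ q ∈ grid (2 * n + w) ∧ Ts n w b p q ∧
      p.1 + q.1 = M.1 ∧ p.2 + q.2 = M.2 := by
  rw [mem_HH] at hM
  push_cast at hM
  -- a strip of the centre rows
  have row : ∀ j : ℤ, (n : ℤ) ≤ j → j < (n : ℤ) + w → M.2 = 2 * j + 1 →
      ∃ p q : ℤ × ℤ, p ∈ grid (2 * n + w) ∧ q ∈ grid (2 * n + w) ∧ Ts n w b p q ∧
      p.1 + q.1 = M.1 ∧ p.2 + q.2 = M.2 := by
    intro j hj1 hj2 hj
    obtain ⟨u, v, huv, hs⟩ := Row_exists (n := n) (w := w) (b j) (s := M.1) (by omega) (by omega)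
    have hb : 0 ≤ u ∧ u ≤ 2 * (n : ℤ) + w ∧ 0 ≤ v ∧ v ≤ 2 * (n : ℤ) + w := by
      rcases huv with h | h | h | h | h <;> omega
    have hm := ev_od_mem (j := j)
    have he := ev_od 0 j
    refine ⟨(u, ev 0 j), (v, od 0 j), ?_, ?_, Or.inr (Or.inl ⟨j, hj1, hj2, rfl, rfl, huv⟩), hs, ?_⟩
    · rw [mem_grid']; simp only; omega
    · rw [mem_grid']; simp only; omega
    · simp only; omega
  -- a strip of the lower or upper arm
  have col : ∀ j : ℤ, (n : ℤ) ≤ j → j < (n : ℤ) + w → M.1 = 2 * j + 1 →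
      (M.2 < 2 * n ∨ 2 * ((n : ℤ) + w) < M.2) →
      ∃ p q : ℤ × ℤ, p ∈ grid (2 * n + w) ∧ q ∈ grid (2 * n + w) ∧ Ts n w b p q ∧
      p.1 + q.1 = M.1 ∧ p.2 + q.2 = M.2 := by
    intro j hj1 hj2 hj hs
    obtain ⟨c, d, hcd, hs'⟩ : ∃ c d : ℤ, Col n w c d ∧ c + d = M.2 := by
      rcases hs with hs | hs
      · by_cases h : M.2 ≤ n
        · exact ⟨0, M.2, Or.inl ⟨rfl, by omega, h⟩, by omega⟩
        · exact ⟨M.2 - n, n, Or.inr (Or.inl ⟨rfl, by omega, by omega⟩), by omega⟩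
      · by_cases h : M.2 ≤ 3 * (n : ℤ) + 2 * w
        · exact ⟨(n : ℤ) + w, M.2 - (n + w), Or.inr (Or.inr (Or.inl ⟨rfl, by omega, by omega⟩)),
            by omega⟩
        · exact ⟨M.2 - (2 * n + w), 2 * (n : ℤ) + w,
            Or.inr (Or.inr (Or.inr ⟨rfl, by omega, by omega⟩)), by omega⟩
    have hb : 0 ≤ c ∧ c ≤ 2 * (n : ℤ) + w ∧ 0 ≤ d ∧ d ≤ 2 * (n : ℤ) + w := by
      unfold Col at hcd
      omega
    have hm := ev_od_mem (j := j)
    have he := ev_od 0 j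
    refine ⟨(ev 0 j, c), (od 0 j, d), ?_, ?_, Or.inr (Or.inr ⟨j, hj1, hj2, rfl, rfl, hcd⟩), ?_, hs'⟩
    · rw [mem_grid']; simp only; omega
    · rw [mem_grid']; simp only; omega
    · simp only; omega
  rcases Int.emod_two_eq_zero_or_one M.2 with h2 | h2
  · -- horizontal midpoints
    by_cases hc : ((n : ℤ) ≤ M.1 / 2 ∧ M.1 / 2 < (n : ℤ) + w) ∧ (M.2 < 2 * n ∨ 2 * ((n : ℤ) + w) < M.2)
    · exact col (M.1 / 2) hc.1.1 hc.1.2 (by omega) hc.2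
    · refine ⟨(M.1 / 2, M.2 / 2), (M.1 / 2 + 1, M.2 / 2), ?_, ?_, Or.inl (Or.inl ⟨rfl, rfl, ?_⟩),
        ?_, ?_⟩
      · rw [mem_grid']; simp only; omega
      · rw [mem_grid']; simp only; omega
      · simp only; omega
      · simp only; omega
      · simp only; omega
  · by_cases hr : (n : ℤ) ≤ M.2 / 2 ∧ M.2 / 2 < (n : ℤ) + w
    · exact row (M.2 / 2) hr.1 hr.2 (by omega)
    · rcases Int.emod_two_eq_zero_or_one M.1 with h1 | h1
      · refine ⟨(M.1 / 2, M.2 / 2), (M.1 / 2, M.2 / 2 + 1), ?_, ?_,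
          Or.inl (Or.inr (Or.inl ⟨rfl, rfl, ?_⟩)), ?_, ?_⟩
        · rw [mem_grid']; simp only; omega
        · rw [mem_grid']; simp only; omega
        · simp only; omega
        · simp only; omega
        · simp only; omega
      · by_cases hc : (n : ℤ) ≤ M.1 / 2 ∧ M.1 / 2 < (n : ℤ) + w
        · exact col (M.1 / 2) hc.1 hc.2 (by omega) (by omega)
        · refine ⟨(M.1 / 2, M.2 / 2), (M.1 / 2 + 1, M.2 / 2 + 1), ?_, ?_,
            Or.inl (Or.inr (Or.inr ⟨rfl, rfl, ?_, ?_⟩)), ?_, ?_⟩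
          · rw [mem_grid']; simp only; omega
          · rw [mem_grid']; simp only; omega
          · simp only; omega
          · simp only; omega
          · simp only; omega
          · simp only; omega

/-- the frozen edges belong to the family -/
lemma Ts_of_Fz {b : ℤ → ℤ → Prop} {p q : ℤ × ℤ} (hp : p ∈ grid (2 * n + w))
    (hq : q ∈ grid (2 * n + w)) (h : Fz n w 0 p q) : Ts n w b p q := by
  rw [mem_grid'] at hp hq
  rcases h with ⟨h1, h2, h3⟩ | h | h | ⟨h1, h2, h3, h4, h5, h6, h7⟩ | ⟨h1, h2, h3, h4, h5, h6, h7⟩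
  · exact Or.inl (Or.inl ⟨h1, h2, by omega⟩)
  · exact Or.inl (Or.inr (Or.inl h))
  · exact Or.inl (Or.inr (Or.inr h))
  · have hR : ∀ c : ℤ → Prop, Row n w c p.1 q.1 := by
      intro c
      rcases h7 with ⟨h7, h8⟩ | ⟨h7, h8⟩
      · exact Or.inl ⟨h7, by omega, h8⟩
      · exact Or.inr (Or.inr (Or.inr (Or.inr ⟨h7, h8, by omega⟩)))
    rcases h1 with h1 | h1
    · have he := ev_od 0 p.2
      exact Or.inr (Or.inl ⟨p.2, h3, by omega, by omega, by omega, hR _⟩)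
    · have he := ev_od 0 q.2
      exact Or.inr (Or.inl ⟨q.2, h4, by omega, by omega, by omega, hR _⟩)
  · have hC : Col n w p.2 q.2 := by
      rcases h7 with ⟨h7, h8⟩ | ⟨h7, h8⟩
      · exact Or.inl ⟨h7, by omega, h8⟩
      · exact Or.inr (Or.inr (Or.inr ⟨h7, h8, by omega⟩))
    rcases h1 with h1 | h1
    · have he := ev_od 0 p.1
      exact Or.inr (Or.inr ⟨p.1, h3, by omega, by omega, by omega, hC⟩)
    · have he := ev_od 0 q.1
      exact Or.inr (Or.inr ⟨q.1, h4, by omega, by omega, by omega, hC⟩)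

open Classical in
/-- the triangulation with the choices `b`, moved by a symmetry -/
noncomputable def TS (n w : ℕ) (k : Fin 4) (b : ℤ → ℤ → Prop) : Finset (Finset (ℤ × ℤ)) :=
  ((grid (2 * n + w) ×ˢ grid (2 * n + w)).filter fun pq => Ts n w b pq.1 pq.2).image
    fun pq => {ph (2 * (n : ℤ) + w) k pq.1, ph (2 * (n : ℤ) + w) k pq.2}

lemma mem_TS {k : Fin 4} {b : ℤ → ℤ → Prop} {e : Finset (ℤ × ℤ)} : e ∈ TS n w k b ↔
    ∃ p q : ℤ × ℤ, p ∈ grid (2 * n + w) ∧ q ∈ grid (2 * n + w) ∧ Ts n w b p q ∧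
      e = {ph (2 * (n : ℤ) + w) k p, ph (2 * (n : ℤ) + w) k q} := by
  classical
  unfold TS
  rw [mem_image]
  constructor
  · rintro ⟨⟨p, q⟩, h, rfl⟩
    rw [mem_filter, mem_product] at h
    exact ⟨p, q, h.1.1, h.1.2, h.2, rfl⟩
  · rintro ⟨p, q, hp, hq, h, rfl⟩
    exact ⟨(p, q), mem_filter.2 ⟨mem_product.2 ⟨hp, hq⟩, h⟩, rfl⟩

lemma ph_mem' (k : Fin 4) {p : ℤ × ℤ} (hp : p ∈ grid (2 * n + w)) :
    ph (2 * (n : ℤ) + w) k p ∈ grid (2 * n + w) := by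
  have hN : ((2 * n + w : ℕ) : ℤ) = 2 * (n : ℤ) + w := by push_cast; ring
  rw [← hN]
  exact ph_mem k hp

theorem isTri_TS (k : Fin 4) (b : ℤ → ℤ → Prop) : IsTri (2 * n + w) (TS n w k b) := by
  have hedge : ∀ p q : ℤ × ℤ, p ∈ grid (2 * n + w) → q ∈ grid (2 * n + w) → Ts n w b p q →
      IsEdge (2 * n + w) {ph (2 * (n : ℤ) + w) k p, ph (2 * (n : ℤ) + w) k q} := by
    intro p q hp hq h
    refine isEdge_of_basis (ph_mem' k hp) (ph_mem' k hq) ?_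
    obtain ⟨v, hv⟩ := prim_Ts h
    fin_cases k
    · exact ⟨v, hv⟩
    · refine ⟨(-v.2, -v.1), ?_⟩
      simp only [ph]
      linarith
    · refine ⟨(-v.1, -v.2), ?_⟩
      simp only [ph]
      linarith
    · refine ⟨(v.2, v.1), ?_⟩
      simp only [ph]
      linarith
  constructor
  · intro e he
    obtain ⟨p, q, hp, hq, h, rfl⟩ := mem_TS.1 he
    exact hedge p q hp hq h
  · intro e he f hf hne
    obtain ⟨p, q, hp, hq, h, rfl⟩ := mem_TS.1 he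
    obtain ⟨p', q', hp', hq', h', rfl⟩ := mem_TS.1 hf
    by_contra hnc
    have := cross_of_not_NC (hedge p q hp hq h) (hedge p' q' hp' hq' h') hne hnc
    rw [cross_ph] at this
    exact nc_Ts h h' this
  · intro e he hnc
    have hM := he.sm_mem
    rw [mem_HH] at hM
    push_cast at hM
    have fin : ∀ M' : ℤ × ℤ, M' ∈ HH (2 * n + w) →
        (∀ a b : ℤ × ℤ, a.1 + b.1 = M'.1 → a.2 + b.2 = M'.2 →
          ph (2 * (n : ℤ) + w) k a + ph (2 * (n : ℤ) + w) k b = sm e) → e ∈ TS n w k b := by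
      intro M' hM' h
      obtain ⟨p, q, hp, hq, hT, h1, h2⟩ := cover_Ts b hM'
      have h3 := h p q h1 h2
      have hmem : ({ph (2 * (n : ℤ) + w) k p, ph (2 * (n : ℤ) + w) k q} : Finset (ℤ × ℤ))
          ∈ TS n w k b := mem_TS.2 ⟨p, q, hp, hq, hT, rfl⟩
      have hed := hedge p q hp hq hT
      have hne : ph (2 * (n : ℤ) + w) k p ≠ ph (2 * (n : ℤ) + w) k q := by
        intro heq
        have := hed.card
        rw [heq, pair_eq_singleton, card_singleton] at this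
        omega
      by_contra hcon
      refine not_NC_of_sm he hed ?_ (hnc _ hmem ?_)
      · rw [sm_pair hne, h3]
      · rintro rfl
        exact hcon hmem
    fin_cases k
    · refine fin (sm e) (by rw [mem_HH]; push_cast; exact hM) fun a b h1 h2 => Prod.ext ?_ ?_
      · simp only [ph, Prod.fst_add]; omega
      · simp only [ph, Prod.snd_add]; omega
    · refine fin ((sm e).2, (sm e).1) (by rw [mem_HH]; push_cast; omega)
        fun a b h1 h2 => Prod.ext ?_ ?_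
      · simp only [ph, Prod.fst_add]; simp only at h1 h2; omega
      · simp only [ph, Prod.snd_add]; simp only at h1 h2; omega
    · refine fin (2 * (2 * (n : ℤ) + w) - (sm e).1, 2 * (2 * (n : ℤ) + w) - (sm e).2)
        (by rw [mem_HH]; push_cast; omega) fun a b h1 h2 => Prod.ext ?_ ?_
      · simp only [ph, Prod.fst_add]; simp only at h1 h2; omega
      · simp only [ph, Prod.snd_add]; simp only at h1 h2; omega
    · refine fin (2 * (2 * (n : ℤ) + w) - (sm e).2, 2 * (2 * (n : ℤ) + w) - (sm e).1)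
        (by rw [mem_HH]; push_cast; omega) fun a b h1 h2 => Prod.ext ?_ ?_
      · simp only [ph, Prod.fst_add]; simp only at h1 h2; omega
      · simp only [ph, Prod.snd_add]; simp only at h1 h2; omega

lemma Fr_sub {k : Fin 4} (hk : sg w k = 0) (b : ℤ → ℤ → Prop) : Fr n w ⊆ TS n w k b := by
  classical
  intro e he
  unfold Fr at he
  rw [mem_image] at he
  obtain ⟨⟨p, q⟩, h, rfl⟩ := he
  rw [mem_filter, mem_product] at h
  obtain ⟨⟨hp, hq⟩, hF⟩ := h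
  simp only at hp hq hF ⊢
  rcases Fz_back k (by rw [hk]; exact hF) with h1 | h1
  · refine mem_TS.2 ⟨_, _, ph_mem' k hp, ph_mem' k hq, Ts_of_Fz (ph_mem' k hp) (ph_mem' k hq) h1, ?_⟩
    rw [ph_ph, ph_ph]
  · refine mem_TS.2 ⟨_, _, ph_mem' k hq, ph_mem' k hp, Ts_of_Fz (ph_mem' k hq) (ph_mem' k hp) h1, ?_⟩
    rw [ph_ph, ph_ph, pair_comm]

end Pool.Agent.LTF
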