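import Pool.Agent.Helper22.LTF.Cnt
import Pool.Agent.Helper22.LTF.States

/-!
# Slow mixing with constraint edges
-/

set_option autoImplicit false

namespace Pool.Agent.LTF

open Finset Pool.Agent.LT

variable {n w : ℕ}

/-- a horizontal and a vertical spanning edge cross -/
lemma spans_cross {a b c d : ℤ × ℤ} (h1 : b.2 = a.2 + 1 ∨ b.2 = a.2 - 1) (h2 : (n : ℤ) ≤ a.2)
    (h3 : (n : ℤ) ≤ b.2) (h4 : a.2 ≤ (n : ℤ) + w) (h5 : b.2 ≤ (n : ℤ) + w) (h6 : a.1 < n)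
    (h7 : (n : ℤ) + w < b.1) (g1 : d.2 = c.2 + 1 ∨ d.2 = c.2 - 1) (g2 : (n : ℤ) ≤ c.2)
    (g3 : (n : ℤ) ≤ d.2) (g4 : c.2 ≤ (n : ℤ) + w) (g5 : d.2 ≤ (n : ℤ) + w) (g6 : c.1 < n)
    (g7 : (n : ℤ) + w < d.1) : Cross a b (c.2, c.1) (d.2, d.1) := by
  have e1 : D a b (c.2, c.1) < 0 := by
    have k1 : (b.1 - a.1) * (c.1 - a.2) ≤ (b.1 - a.1) * (-1) :=
      mul_le_mul_of_nonneg_left (by omega) (by omega)
    unfold D
    simp only
    rcases h1 with h1 | h1
    · rw [show b.2 - a.2 = 1 by omega]; linarith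
    · rw [show b.2 - a.2 = -1 by omega]; linarith
  have e2 : 0 < D a b (d.2, d.1) := by
    have k1 : (b.1 - a.1) * 1 ≤ (b.1 - a.1) * (d.1 - a.2) :=
      mul_le_mul_of_nonneg_left (by omega) (by omega)
    unfold D
    simp only
    rcases h1 with h1 | h1
    · rw [show b.2 - a.2 = 1 by omega]; linarith
    · rw [show b.2 - a.2 = -1 by omega]; linarith
  have e3 : 0 < D (c.2, c.1) (d.2, d.1) a := by
    have k1 : (d.1 - c.1) * (a.1 - c.2) ≤ (d.1 - c.1) * (-1) :=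
      mul_le_mul_of_nonneg_left (by omega) (by omega)
    unfold D
    simp only
    rcases g1 with g1 | g1
    · rw [show d.2 - c.2 = 1 by omega]; linarith
    · rw [show d.2 - c.2 = -1 by omega]; linarith
  have e4 : D (c.2, c.1) (d.2, d.1) b < 0 := by
    have k1 : (d.1 - c.1) * 1 ≤ (d.1 - c.1) * (b.1 - c.2) :=
      mul_le_mul_of_nonneg_left (by omega) (by omega)
    unfold D
    simp only
    rcases g1 with g1 | g1
    · rw [show d.2 - c.2 = 1 by omega]; linarith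
    · rw [show d.2 - c.2 = -1 by omega]; linarith
  exact ⟨mul_neg_of_neg_of_pos e1 e2, mul_neg_of_pos_of_neg e3 e4⟩

lemma not_both (T : Tri (2 * n + w)) (h : Sp n w (ER T 0)) (g : Sp n w (ER T 1)) : False := by
  obtain ⟨a, b, hab, h1, h2, h3, h4, h5, h6, h7⟩ := h
  obtain ⟨c, d, hcd, g1, g2, g3, g4, g5, g6, g7⟩ := g
  exact T.2.fam.nc _ _ _ _ hab hcd (spans_cross h1 h2 h3 h4 h5 h6 h7 g1 g2 g3 g4 g5 g6 g7)

/-- a flip does not lead from a horizontal to a vertical spanning edge -/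
lemma no_direct {T T' : Tri (2 * n + w)} {e : Finset (ℤ × ℤ)} (hf : FlipAt T.1 e T'.1)
    (hw : 1 ≤ w) (h : Sp n w (ER T 0)) (g : Sp n w (ER T' 1)) : False := by
  obtain ⟨f, he, hef, hT'⟩ := hf.exists_insert T.2
  have h0 := h
  have g0 := g
  obtain ⟨a, b, hab, h1, h2, h3, h4, h5, h6, h7⟩ := h
  obtain ⟨c, d, hcd, g1, g2, g3, g4, g5, g6, g7⟩ := g
  have hab' : ({a, b} : Finset (ℤ × ℤ)) ∉ T'.1 := fun hmem =>
    not_both T' ⟨a, b, hmem, h1, h2, h3, h4, h5, h6, h7⟩ g0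
  have hcd' : ({(c.2, c.1), (d.2, d.1)} : Finset (ℤ × ℤ)) ∉ T.1 := fun hmem =>
    not_both T h0 ⟨c, d, hmem, g1, g2, g3, g4, g5, g6, g7⟩
  have hab2 : ({a, b} : Finset (ℤ × ℤ)) ∈ T.1 := hab
  have hcd2 : ({(c.2, c.1), (d.2, d.1)} : Finset (ℤ × ℤ)) ∈ T'.1 := hcd
  have ee : e = {a, b} := by
    by_contra hne
    apply hab'
    rw [hT']
    exact mem_insert_of_mem (mem_erase.2 ⟨fun h => hne h.symm, hab2⟩)
  have ef : f = {(c.2, c.1), (d.2, d.1)} := by
    rw [hT', mem_insert, mem_erase] at hcd2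
    rcases hcd2 with h | h
    · exact h.symm
    · exact absurd h.2 hcd'
  have hdet := (flip_one T.2 he hef (hT' ▸ T'.2)).2.2 a b (c.2, c.1) (d.2, d.1) ee ef
  simp only at hdet
  have k1 : (3 : ℤ) * 3 ≤ (b.1 - a.1) * (d.1 - c.1) :=
    mul_le_mul (by omega) (by omega) (by norm_num) (by omega)
  rw [abs_eq (by norm_num)] at hdet
  rcases h1 with h1 | h1 <;> rcases g1 with g1 | g1
  · rw [show b.2 - a.2 = 1 by omega, show d.2 - c.2 = 1 by omega] at hdet; omega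
  · rw [show b.2 - a.2 = 1 by omega, show d.2 - c.2 = -1 by omega] at hdet; omega
  · rw [show b.2 - a.2 = -1 by omega, show d.2 - c.2 = 1 by omega] at hdet; omega
  · rw [show b.2 - a.2 = -1 by omega, show d.2 - c.2 = -1 by omega] at hdet; omega

/-- the choices given by a set -/
def bb (n w : ℕ) (B : Finset (Fin w × Fin (n + w))) (j i : ℤ) : Prop :=
  ∃ x ∈ B, (n : ℤ) + (x.1.val : ℤ) = j ∧ (x.2.val : ℤ) = i

/-- the states -/
noncomputable def st {k : Fin 4} (hk : sg w k = 0) (B : Finset (Fin w × Fin (n + w))) :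
    TriF (2 * n + w) (Fr n w) :=
  ⟨⟨TS n w k (bb n w B), isTri_TS k _⟩, Fr_sub hk _⟩

lemma ER_st {k : Fin 4} (hk : sg w k = 0) (B : Finset (Fin w × Fin (n + w))) {p q : ℤ × ℤ}
    (hp : p ∈ grid (2 * n + w)) (hq : q ∈ grid (2 * n + w)) (h : Ts n w (bb n w B) p q) :
    ER (st hk B).tri k p q := mem_TS.2 ⟨p, q, hp, hq, h, rfl⟩

lemma st_sub {k : Fin 4} (hk : sg w k = 0) {B B' : Finset (Fin w × Fin (n + w))}
    (h : st hk B = st hk B') : B ⊆ B' := by
  intro x hx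
  by_contra hx'
  have b1 : bb n w B ((n : ℤ) + (x.1.val : ℤ)) (x.2.val : ℤ) := ⟨x, hx, rfl, rfl⟩
  have b2 : ¬ bb n w B' ((n : ℤ) + (x.1.val : ℤ)) (x.2.val : ℤ) := by
    rintro ⟨y, hy, h1, h2⟩
    have e1 : y.1 = x.1 := Fin.ext (by omega)
    have e2 : y.2 = x.2 := Fin.ext (by omega)
    exact hx' (by rwa [← Prod.ext e1 e2])
  set j : ℤ := (n : ℤ) + (x.1.val : ℤ) with hj
  set i : ℤ := (x.2.val : ℤ) with hi
  have hj1 : (n : ℤ) ≤ j ∧ j < (n : ℤ) + w := by have := x.1.isLt; omega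
  have hi1 : 0 ≤ i ∧ i < (n : ℤ) + w := by have := x.2.isLt; omega
  have hm := ev_od_mem (j := j)
  have s1 : SE 0 (ER (st hk B).tri k) j (i + 1) (n + i) := by
    refine ER_st hk B ?_ ?_ (Or.inr (Or.inl ⟨j, hj1.1, hj1.2, rfl, rfl,
      Or.inr (Or.inr (Or.inl ⟨?_, ?_, ?_, ?_⟩))⟩))
    · rw [mem_grid']; simp only; omega
    · rw [mem_grid']; simp only; omega
    · simp only; omega
    · simp only; omega
    · simp only; omega
    · simp only [add_sub_cancel_right]; exact b1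
  have s2 : SE 0 (ER (st hk B').tri k) j i (n + i + 1) := by
    refine ER_st hk B' ?_ ?_ (Or.inr (Or.inl ⟨j, hj1.1, hj1.2, rfl, rfl,
      Or.inr (Or.inr (Or.inr (Or.inl ⟨?_, ?_, ?_, b2⟩)))⟩))
    · rw [mem_grid']; simp only; omega
    · rw [mem_grid']; simp only; omega
    · simp only; omega
    · simp only; omega
    · simp only
  rw [← h] at s2
  have hR := ER_rel (st hk B).tri (st hk B).has k
  rw [hk] at hR
  have := hR.SE_comp s1 s2
  omega

lemma st_injective {k : Fin 4} (hk : sg w k = 0) :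
    Function.Injective (st (n := n) hk) := fun _ _ h =>
  Subset.antisymm (st_sub hk h) (st_sub hk h.symm)

lemma Sp_st (hw : 1 ≤ w) (hn : w + 2 ≤ n) {k : Fin 4} (hk : sg w k = 0) (B : Finset (Fin w × Fin (n + w))) :
    Sp n w (ER (st hk B).tri k) := by
  have hm := ev_od 0 (n : ℤ)
  refine ⟨((w : ℤ) + 1, ev 0 n), ((n : ℤ) + (w + 1), od 0 n), ER_st hk B ?_ ?_
    (Or.inr (Or.inl ⟨n, le_rfl, by omega, rfl, rfl, Or.inr (Or.inl ⟨?_, ?_, rfl⟩)⟩)),
    ?_, ?_, ?_, ?_, ?_, ?_, ?_⟩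
  · rw [mem_grid']; simp only; omega
  · rw [mem_grid']; simp only; omega
  all_goals simp only
  all_goals omega

open Classical in
/-- many states have a spanning edge of a given type -/
lemma card_ge (hw : 1 ≤ w) (hn : w + 2 ≤ n) {k : Fin 4} (hk : sg w k = 0) :
    2 ^ (w * (n + w)) ≤ ((univ : Finset (TriF (2 * n + w) (Fr n w))).filter
      fun T => Sp n w (ER T.tri k)).card := by
  calc 2 ^ (w * (n + w)) = (univ : Finset (Finset (Fin w × Fin (n + w)))).card := by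
        rw [card_univ, Fintype.card_finset, Fintype.card_prod, Fintype.card_fin, Fintype.card_fin]
    _ ≤ _ := card_le_card_of_injOn (st hk)
        (fun B _ => mem_coe.2 (mem_filter.2 ⟨mem_univ _, Sp_st hw hn hk B⟩))
        fun _ _ _ _ h => st_injective hk h

/-- the bottleneck -/
theorem torpid (n w : ℕ) (hw : 1 ≤ w) (hn : w + 2 ≤ n) (t : ℕ)
    (h : MixedF (2 * n + w) (Fr n w) t) :
    (2 : ℝ) ^ (w * (n + w)) ≤ 4 * t * 2 ^ (28 * w ^ 2 + 4 * (w * n) / 32 + 1) := by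
  classical
  set A : Finset (TriF (2 * n + w) (Fr n w)) := univ.filter fun T => Sp n w (ER T.tri 0) with hA
  have hAc : (univ.filter fun T : TriF (2 * n + w) (Fr n w) => Sp n w (ER T.tri 1)) ⊆ Aᶜ := by
    intro T hT
    rw [mem_compl, hA, mem_filter]
    rintro ⟨-, h0⟩
    exact not_both T.tri h0 (mem_filter.1 hT).2
  have key := bottleneck (P := kernelF (2 * n + w) (Fr n w)) kernelF_nonneg
    (kernelF_sum (by omega)) (kernelF_symm _ _) A (Bs n w) (by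
      intro T hT T' hT' hne
      have hne' : T ≠ T' := by
        rintro rfl
        exact hT' hT
      obtain ⟨e, he⟩ := flip_of_kernelF hne' hne
      unfold Bs
      rw [mem_filter]
      refine ⟨mem_univ _, ?_, ?_⟩
      · intro h0
        exact hT' (mem_filter.2 ⟨mem_univ _, h0⟩)
      · intro h1
        exact no_direct he hw (mem_filter.1 hT).2 h1)
    (2 ^ (w * (n + w))) (card_ge hw hn (k := 0) rfl)
    ((card_ge hw hn (k := 1) rfl).trans (card_le_card hAc)) t h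
  have hB : ((Bs n w).card : ℝ) ≤ 2 ^ (28 * w ^ 2 + 4 * (w * n) / 32 + 1) := by
    exact_mod_cast card_Bs n w
  have h4 : (0 : ℝ) ≤ 4 * t := by positivity
  have h5 := key.trans (mul_le_mul_of_nonneg_left hB h4)
  push_cast at h5
  exact h5

/-- **slow mixing with constraint edges** -/
theorem slow (N : ℕ) (hN : 258 ≤ N) : ∃ F : Finset (Finset (ℤ × ℤ)),
    Nonempty (TriF N F) ∧ ∀ t : ℕ, MixedF N F t → (2 : ℝ) ^ ((N : ℝ) ^ 2 / 1100) ≤ t := by
  obtain ⟨n, w, rfl, hw, hn, hn'⟩ : ∃ n w : ℕ, N = 2 * n + w ∧ 1 ≤ w ∧ 64 * w ≤ n ∧ n ≤ 193 * w := by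
    by_cases h : (N / 129) % 2 = N % 2
    · exact ⟨(N - N / 129) / 2, N / 129, by omega, by omega, by omega, by omega⟩
    · exact ⟨(N - (N / 129 - 1)) / 2, N / 129 - 1, by omega, by omega, by omega, by omega⟩
  refine ⟨Fr n w, ⟨st (k := 0) rfl ∅⟩, fun t h => ?_⟩
  have h1 := torpid n w hw (by omega) t h
  set X := 28 * w ^ 2 + 4 * (w * n) / 32 + 1 with hX
  have hXle : (X : ℝ) ≤ 28 * (w : ℝ) ^ 2 + w * n / 8 + 1 := by
    have h2 : (((4 * (w * n) / 32 : ℕ)) : ℝ) ≤ ((4 * (w * n) : ℕ) : ℝ) / (32 : ℕ) := Nat.cast_div_le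
    push_cast at h2
    rw [hX]
    push_cast
    linarith
  have hnum : ((2 * n + w : ℕ) : ℝ) ^ 2 / 1100 + 2 + X ≤ (w * (n + w) : ℕ) := by
    push_cast
    have w1 : (1 : ℝ) ≤ w := by exact_mod_cast hw
    have n1 : 64 * (w : ℝ) ≤ n := by exact_mod_cast hn
    have n2 : (n : ℝ) ≤ 193 * w := by exact_mod_cast hn'
    have h3 : 0 ≤ ((n : ℝ) - 64 * w) * (193 * w - n) := mul_nonneg (by linarith) (by linarith)
    have h4 : (w : ℝ) * n ≤ w * (193 * w) := mul_le_mul_of_nonneg_left n2 (by linarith)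
    nlinarith
  have h6 : (2 : ℝ) ^ (((2 * n + w : ℕ) : ℝ) ^ 2 / 1100) * (4 * 2 ^ X) ≤ 2 ^ (w * (n + w)) := by
    have e1 : (4 : ℝ) * 2 ^ X = (2 : ℝ) ^ ((2 : ℝ) + X) := by
      rw [Real.rpow_add (by norm_num), Real.rpow_natCast]
      norm_num
    rw [e1, ← Real.rpow_add (by norm_num), ← Real.rpow_natCast 2 (w * (n + w))]
    refine Real.rpow_le_rpow_of_exponent_le (by norm_num) ?_
    linarith
  have h7 : (2 : ℝ) ^ (((2 * n + w : ℕ) : ℝ) ^ 2 / 1100) * (4 * 2 ^ X) ≤ t * (4 * 2 ^ X) := by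
    refine h6.trans (h1.trans (le_of_eq ?_))
    ring
  exact le_of_mul_le_mul_right h7 (by positivity)

end Pool.Agent.LTF
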